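import Pool.Agent.R134.Kak.Induct
import Pool.Agent.R134.Kak.Final
import Pool.Agent.Y254.EL.Fin

set_option autoImplicit false

/-!
# The base case: from tubes with separated slopes to families of bounded multiplicity
-/

open MeasureTheory Set Filter Topology ENNReal NNReal Metric

namespace Pool.Agent.U527.Rs

open Pool.Agent.R134.Kak (Vec tub Mult tub_meas tub_le_one lint_scale)
open Pool.Agent.Y254 (mult mult_meas)
open Pool.Agent.Y254.EL (tb Pt tb_meas Sep LF)

variable {m : ℕ}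

theorem norm_ofLp_le (x : Vec m) : ‖(WithLp.ofLp x : Fin m → ℝ)‖ ≤ ‖x‖ := by
  rw [pi_norm_le_iff_of_nonneg (norm_nonneg _)]
  intro k
  exact PiLp.norm_apply_le x k

/-- Families with `1`-separated slopes. -/
theorem sep_int {q R C : ℝ} (hq0 : 0 < q) (hLF : LF m R q C)
    {A L : ℝ} (hA : A ≤ R) (hL : L ≤ R) {ι : Type} (J : Finset ι)
    (v β : ι → Vec m) (hsep : ∀ i ∈ J, ∀ j ∈ J, i ≠ j → 1 ≤ ‖(WithLp.ofLp (v i) - WithLp.ofLp (v j) : Fin m → ℝ)‖) :
    ∫⁻ t in Icc (-L) L, ∫⁻ x, (∑ i ∈ J, tub A v β i (t, x)) ^ q ≤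
      ENNReal.ofReal (C * (J.card : ℝ) ^ (q - 1 / (m : ℝ))) := by
  classical
  -- the scale
  obtain ⟨B, hB⟩ : ∃ B : ℝ, ∀ i ∈ J, ‖v i‖ ≤ B := by
    refine ⟨∑ i ∈ J, ‖v i‖, fun i hi => ?_⟩
    exact Finset.single_le_sum (f := fun i => ‖v i‖) (fun i _ => norm_nonneg _) hi
  set M : ℝ := max B 2 with hM
  have hM0 : 0 < M := lt_of_lt_of_le two_pos (le_max_right _ _)
  set δ : ℝ := M⁻¹ with hδ
  have hδ0 : 0 < δ := inv_pos.2 hM0
  have hδ1 : δ < 1 := inv_lt_one_of_one_lt₀ (lt_of_lt_of_le one_lt_two (le_max_right _ _))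
  set P : {i // i ∈ J} → Fin m → ℝ := fun i => δ • WithLp.ofLp (β i.1) with hP
  set V : {i // i ∈ J} → Fin m → ℝ := fun i => δ • WithLp.ofLp (v i.1) with hV
  have hV1 : ∀ i, ‖V i‖ ≤ 1 := by
    intro i
    have h1 : ‖v i.1‖ ≤ M := (hB i.1 i.2).trans (le_max_left _ _)
    rw [hV]
    show ‖δ • WithLp.ofLp (v i.1)‖ ≤ 1
    rw [norm_smul, Real.norm_eq_abs, abs_of_pos hδ0, hδ, inv_mul_le_iff₀ hM0, mul_one]
    exact (norm_ofLp_le _).trans h1
  have hVs : Sep δ V := by
    intro i j hij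
    have h1 := hsep i.1 i.2 j.1 j.2 (fun h => hij (Subtype.ext h))
    rw [hV]
    show δ ≤ ‖δ • WithLp.ofLp (v i.1) - δ • WithLp.ofLp (v j.1)‖
    rw [← smul_sub, norm_smul, Real.norm_eq_abs, abs_of_pos hδ0]
    exact le_mul_of_one_le_right hδ0.le h1
  have hmain := hLF δ hδ0 hδ1 (fun _ => 0) P V hV1 hVs
  set T : {i // i ∈ J} → Set (Pt m) := fun i => tb R (R * δ) 0 (P i) (V i) with hT
  have hTm : ∀ i, MeasurableSet (T i) := fun i => tb_meas _ _ _ _ _
  have hmm : Measurable (fun z : Pt m => mult T z ^ q) := (mult_meas hTm).pow_const q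
  rw [Fintype.card_coe] at hmain
  -- slices
  have hslice : ∀ t ∈ Icc (-L) L, ∫⁻ x, (∑ i ∈ J, tub A v β i (t, x)) ^ q ≤
      ENNReal.ofReal (M ^ m) * ∫⁻ y : Fin m → ℝ, mult T (t, y) ^ q := by
    intro t ht
    have hmt : Measurable (fun y : Fin m → ℝ => mult T (t, y) ^ q) :=
      hmm.comp (measurable_const.prodMk measurable_id)
    have e1 : ∫⁻ y : Fin m → ℝ, mult T (t, y) ^ q =
        ∫⁻ x : Vec m, mult T (t, WithLp.ofLp x) ^ q :=
      ((PiLp.volume_preserving_ofLp (Fin m)).lintegral_comp hmt).symm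
    have hmx : Measurable (fun x : Vec m => mult T (t, WithLp.ofLp x) ^ q) :=
      hmt.comp (PiLp.volume_preserving_ofLp (Fin m)).measurable
    rw [e1, ← lint_scale hM0 (fun x : Vec m => mult T (t, WithLp.ofLp x) ^ q) hmx]
    refine lintegral_mono fun x => ENNReal.rpow_le_rpow ?_ hq0.le
    rw [← Finset.sum_coe_sort J (fun i => tub A v β i (t, x))]
    unfold mult
    refine Finset.sum_le_sum fun i _ => ?_
    unfold tub
    by_cases hx : ‖x - (β i.1 + t • v i.1)‖ ≤ A
    · rw [indicator_of_mem (show (t, x) ∈ {p : ℝ × Vec m | ‖p.2 - (β i.1 + p.1 • v i.1)‖ ≤ A} from hx),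
        indicator_of_mem]
      · rfl
      · refine ⟨?_, ?_⟩
        · show |t - 0| ≤ R
          rw [sub_zero, abs_le]
          constructor
          · linarith [ht.1]
          · linarith [ht.2]
        · show ‖WithLp.ofLp (M⁻¹ • x) - δ • WithLp.ofLp (β i.1) - t • (δ • WithLp.ofLp (v i.1))‖ ≤ R * δ
          have e2 : WithLp.ofLp (M⁻¹ • x) - δ • WithLp.ofLp (β i.1) - t • (δ • WithLp.ofLp (v i.1)) =
              δ • WithLp.ofLp (x - (β i.1 + t • v i.1)) := by
            rw [← hδ]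
            simp only [WithLp.ofLp_smul, WithLp.ofLp_sub, WithLp.ofLp_add]
            module
          rw [e2, norm_smul, Real.norm_eq_abs, abs_of_pos hδ0, mul_comm R δ]
          apply mul_le_mul_of_nonneg_left _ hδ0.le
          exact (norm_ofLp_le _).trans (hx.trans hA)
    · rw [indicator_of_notMem (show (t, x) ∉ {p : ℝ × Vec m | ‖p.2 - (β i.1 + p.1 • v i.1)‖ ≤ A} from hx)]
      exact zero_le
  have hIm : Measurable (fun t : ℝ => ∫⁻ y : Fin m → ℝ, mult T (t, y) ^ q) :=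
    hmm.lintegral_prod_right'
  calc ∫⁻ t in Icc (-L) L, ∫⁻ x, (∑ i ∈ J, tub A v β i (t, x)) ^ q
      ≤ ∫⁻ t in Icc (-L) L, ENNReal.ofReal (M ^ m) * ∫⁻ y : Fin m → ℝ, mult T (t, y) ^ q :=
        setLIntegral_mono' measurableSet_Icc hslice
    _ ≤ ∫⁻ t : ℝ, ENNReal.ofReal (M ^ m) * ∫⁻ y : Fin m → ℝ, mult T (t, y) ^ q :=
        setLIntegral_le_lintegral _ _
    _ = ENNReal.ofReal (M ^ m) * ∫⁻ z : Pt m, mult T z ^ q := by
        rw [lintegral_const_mul _ hIm, Measure.volume_eq_prod, lintegral_prod _ hmm.aemeasurable]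
    _ ≤ ENNReal.ofReal (M ^ m) * ENNReal.ofReal (C * (δ ^ m * (J.card : ℝ) ^ (q - 1 / (m : ℝ)))) :=
        mul_le_mul' le_rfl hmain
    _ = _ := by
        rw [← ENNReal.ofReal_mul (by positivity)]
        congr 1
        have e3 : M ^ m * δ ^ m = 1 := by
          rw [← mul_pow, hδ, mul_inv_cancel₀ hM0.ne', one_pow]
        calc M ^ m * (C * (δ ^ m * (J.card : ℝ) ^ (q - 1 / (m : ℝ)))) =
            (M ^ m * δ ^ m) * (C * (J.card : ℝ) ^ (q - 1 / (m : ℝ))) := by ring
          _ = _ := by rw [e3, one_mul]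

/-- Numbering inside the classes of a function. -/
theorem exists_number {ι Z : Type} [DecidableEq Z] (J : Finset ι) (cell : ι → Z) {κ : ℕ}
    (h : ∀ z, (J.filter (fun i => cell i = z)).card ≤ κ) :
    ∃ num : ι → ℕ, (∀ i ∈ J, num i < κ) ∧
      ∀ i ∈ J, ∀ j ∈ J, cell i = cell j → num i = num j → i = j := by
  classical
  set g : Z → ι → ℕ := fun z i =>
    if hi : i ∈ J.filter (fun i => cell i = z) then
      ((J.filter (fun i => cell i = z)).equivFin ⟨i, hi⟩ : ℕ) else 0 with hg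
  refine ⟨fun i => g (cell i) i, ?_, ?_⟩
  · intro i hi
    have hi' : i ∈ J.filter (fun j => cell j = cell i) := Finset.mem_filter.2 ⟨hi, rfl⟩
    have e1 : g (cell i) i = ((J.filter (fun j => cell j = cell i)).equivFin ⟨i, hi'⟩ : ℕ) := by
      rw [hg]
      simp only
      rw [dif_pos hi']
    show g (cell i) i < κ
    rw [e1]
    exact lt_of_lt_of_le (Fin.isLt _) (h _)
  · intro i hi j hj hc hn
    simp only at hn
    rw [← hc] at hn
    have hi' : i ∈ J.filter (fun l => cell l = cell i) := Finset.mem_filter.2 ⟨hi, rfl⟩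
    have hj' : j ∈ J.filter (fun l => cell l = cell i) := Finset.mem_filter.2 ⟨hj, hc.symm⟩
    have e1 : g (cell i) i = ((J.filter (fun l => cell l = cell i)).equivFin ⟨i, hi'⟩ : ℕ) := by
      rw [hg]
      simp only
      rw [dif_pos hi']
    have e2 : g (cell i) j = ((J.filter (fun l => cell l = cell i)).equivFin ⟨j, hj'⟩ : ℕ) := by
      rw [hg]
      simp only
      rw [dif_pos hj']
    rw [e1, e2] at hn
    have h3 := (J.filter (fun l => cell l = cell i)).equivFin.injective (Fin.ext hn)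
    exact congrArg Subtype.val h3

/-- Families of bounded multiplicity split into boundedly many families with `1`-separated slopes. -/
theorem exists_coloring {κ : ℕ} {ι : Type} {J : Finset ι} {v : ι → Vec m} (hM : Mult κ m J v) :
    ∃ col : ι → (Fin m → Bool) × Fin (κ + 1), ∀ i ∈ J, ∀ j ∈ J, col i = col j → i ≠ j →
      1 ≤ ‖(WithLp.ofLp (v i) - WithLp.ofLp (v j) : Fin m → ℝ)‖ := by
  classical
  set cell : ι → Fin m → ℤ := fun i k => ⌊v i k⌋ with hcell
  have hcard : ∀ z, (J.filter (fun i => cell i = z)).card ≤ κ := by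
    intro z
    apply hM _ (Finset.filter_subset _ _)
    intro i hi j hj
    have h1 : cell i = cell j := (Finset.mem_filter.1 hi).2.trans (Finset.mem_filter.1 hj).2.symm
    rw [EuclideanSpace.norm_sq_eq]
    calc ∑ k, ‖(v i - v j) k‖ ^ 2 ≤ ∑ _k : Fin m, (1 : ℝ) := by
          refine Finset.sum_le_sum fun k _ => ?_
          have h2 : ⌊v i k⌋ = ⌊v j k⌋ := congrFun h1 k
          have h3 := Int.abs_sub_lt_one_of_floor_eq_floor h2
          rw [Real.norm_eq_abs]
          have e4 : (v i - v j) k = v i k - v j k := rfl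
          rw [e4]
          have := abs_nonneg (v i k - v j k)
          nlinarith
      _ = m := by simp
  obtain ⟨num, h1, h2⟩ := exists_number J cell hcard
  refine ⟨fun i => (fun k => decide (cell i k % 2 = 0), Fin.ofNat (κ + 1) (num i)), ?_⟩
  intro i hi j hj hc hij
  have hc1 := congrArg Prod.fst hc
  have hc2 := congrArg Prod.snd hc
  simp only at hc1 hc2
  have hnum : num i = num j := by
    have h3 := congrArg Fin.val hc2
    rw [Fin.val_ofNat, Fin.val_ofNat, Nat.mod_eq_of_lt (by have := h1 i hi; omega),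
      Nat.mod_eq_of_lt (by have := h1 j hj; omega)] at h3
    exact h3
  have hne : cell i ≠ cell j := fun h => hij (h2 i hi j hj h hnum)
  obtain ⟨k, hk⟩ := Function.ne_iff.1 hne
  have hpar : (cell i k % 2 = 0) ↔ (cell j k % 2 = 0) := by
    have := congrFun hc1 k
    simp only [decide_eq_decide] at this
    exact this
  have h4 : 2 ≤ |cell i k - cell j k| := by
    rcases abs_cases (cell i k - cell j k) with h | h <;> omega
  have h5 : (2 : ℝ) ≤ |((cell i k : ℤ) : ℝ) - ((cell j k : ℤ) : ℝ)| := by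
    exact_mod_cast h4
  have h6 : 1 ≤ |v i k - v j k| := by
    have a1 := Int.floor_le (v i k)
    have a2 := Int.lt_floor_add_one (v i k)
    have a3 := Int.floor_le (v j k)
    have a4 := Int.lt_floor_add_one (v j k)
    have e1 : cell i k = ⌊v i k⌋ := rfl
    have e2 : cell j k = ⌊v j k⌋ := rfl
    rw [e1, e2] at h5
    rcases le_abs.1 h5 with h | h
    · rw [le_abs]; left; linarith
    · rw [le_abs]; right; linarith
  calc (1 : ℝ) ≤ |v i k - v j k| := h6
    _ = ‖(WithLp.ofLp (v i) - WithLp.ofLp (v j) : Fin m → ℝ) k‖ := rfl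
    _ ≤ _ := norm_le_pi_norm _ k

/-- **The base case.** -/
theorem base_int {q : ℝ} (hm : 1 ≤ m) (hq1 : 1 + 1 / (m : ℝ) ≤ q) (hLF : ∀ R : ℝ, 1 ≤ R → ∃ C : ℝ, 0 ≤ C ∧ LF m R q C)
    (A L : ℝ) (κ : ℕ) :
    ∃ C : ℝ, 0 < C ∧ ∀ (ι : Type) (J : Finset ι) (v β : ι → Vec m), J.Nonempty →
      Mult κ m J v → ∫⁻ t in Icc (-L) L, ∫⁻ x, (∑ i ∈ J, tub A v β i (t, x)) ^ q ≤
        ENNReal.ofReal (C * (J.card : ℝ) ^ (q - 1 / (m : ℝ))) := by
  classical
  have hm0 : (0 : ℝ) < m := by exact_mod_cast hm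
  have hmi : 0 < 1 / (m : ℝ) := by positivity
  have hq0 : 0 < q := by linarith
  have hq1' : 1 ≤ q := by linarith
  obtain ⟨C, hC, h⟩ := hLF (max 1 (max A L)) (le_max_left _ _)
  set D : ℝ := (Fintype.card ((Fin m → Bool) × Fin (κ + 1)) : ℝ) with hD
  have hD1 : 1 ≤ D := by
    rw [hD]
    exact_mod_cast Fintype.card_pos
  have hD0 : 0 < D := by linarith
  refine ⟨D ^ (q - 1) * (D * C) + 1, by positivity, ?_⟩
  intro ι J v β hJ hM
  obtain ⟨col, hcol⟩ := exists_coloring hM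
  have hJ0 : (0 : ℝ) < J.card := by exact_mod_cast hJ.card_pos
  have hpt : ∀ t x, (∑ i ∈ J, tub A v β i (t, x)) ^ q ≤
      ENNReal.ofReal (D ^ (q - 1)) * ∑ c : (Fin m → Bool) × Fin (κ + 1),
        (∑ i ∈ J.filter (fun i => col i = c), tub A v β i (t, x)) ^ q := by
    intro t x
    rw [← Finset.sum_fiberwise J col (fun i => tub A v β i (t, x))]
    have h1 := ENNReal.rpow_sum_le_const_mul_sum_rpow (Finset.univ : Finset ((Fin m → Bool) × Fin (κ + 1)))
      (fun c => ∑ i ∈ J.filter (fun i => col i = c), tub A v β i (t, x)) hq1'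
    refine h1.trans (le_of_eq ?_)
    congr 1
    rw [Finset.card_univ, hD, ← ENNReal.ofReal_natCast, ENNReal.ofReal_rpow_of_pos hD0]
  have hms : ∀ c : (Fin m → Bool) × Fin (κ + 1), Measurable (fun p : ℝ × Vec m =>
      (∑ i ∈ J.filter (fun i => col i = c), tub A v β i p) ^ q) := fun c =>
    (Finset.measurable_fun_sum _ fun i _ => tub_meas A v β i).pow_const q
  have hms' : ∀ (c : (Fin m → Bool) × Fin (κ + 1)) (t : ℝ), Measurable (fun x : Vec m =>
      (∑ i ∈ J.filter (fun i => col i = c), tub A v β i (t, x)) ^ q) := fun c t =>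
    (hms c).comp (measurable_const.prodMk measurable_id)
  calc ∫⁻ t in Icc (-L) L, ∫⁻ x, (∑ i ∈ J, tub A v β i (t, x)) ^ q
      ≤ ∫⁻ t in Icc (-L) L, ∫⁻ x, ENNReal.ofReal (D ^ (q - 1)) * ∑ c : (Fin m → Bool) × Fin (κ + 1),
        (∑ i ∈ J.filter (fun i => col i = c), tub A v β i (t, x)) ^ q :=
        lintegral_mono fun t => lintegral_mono fun x => hpt t x
    _ = ENNReal.ofReal (D ^ (q - 1)) * ∑ c : (Fin m → Bool) × Fin (κ + 1),
        ∫⁻ t in Icc (-L) L, ∫⁻ x, (∑ i ∈ J.filter (fun i => col i = c), tub A v β i (t, x)) ^ q := by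
        rw [← lintegral_finsetSum _ (fun c _ => (hms c).lintegral_prod_right'),
          ← lintegral_const_mul' _ _ ENNReal.ofReal_ne_top]
        refine lintegral_congr fun t => ?_
        rw [lintegral_const_mul' _ _ ENNReal.ofReal_ne_top, lintegral_finsetSum _ (fun c _ => hms' c t)]
    _ ≤ ENNReal.ofReal (D ^ (q - 1)) * ∑ _c : (Fin m → Bool) × Fin (κ + 1),
        ENNReal.ofReal (C * (J.card : ℝ) ^ (q - 1 / (m : ℝ))) := by
        refine mul_le_mul' le_rfl (Finset.sum_le_sum fun c _ => ?_)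
        refine (sep_int hq0 h ((le_max_left _ _).trans (le_max_right _ _))
          ((le_max_right _ _).trans (le_max_right _ _)) (J.filter (fun i => col i = c)) v β ?_).trans ?_
        · intro i hi j hj hij
          have a1 := Finset.mem_filter.1 hi
          have a2 := Finset.mem_filter.1 hj
          exact hcol i a1.1 j a2.1 (a1.2.trans a2.2.symm) hij
        · apply ENNReal.ofReal_le_ofReal
          apply mul_le_mul_of_nonneg_left _ hC
          apply Real.rpow_le_rpow (Nat.cast_nonneg _) _ (by linarith)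
          exact_mod_cast Finset.card_le_card (Finset.filter_subset _ _)
    _ = ENNReal.ofReal (D ^ (q - 1) * (D * C) * (J.card : ℝ) ^ (q - 1 / (m : ℝ))) := by
        rw [Finset.sum_const, Finset.card_univ, nsmul_eq_mul, ← ENNReal.ofReal_natCast, ← hD,
          ← ENNReal.ofReal_mul hD0.le, ← ENNReal.ofReal_mul (by positivity)]
        congr 1
        ring
    _ ≤ _ := by
        apply ENNReal.ofReal_le_ofReal
        apply mul_le_mul_of_nonneg_right _ (by positivity)
        linarith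

/-- Larger exponents. -/
theorem base_large {p q : ℝ} (hp0 : 0 < p) (hpq : p ≤ q) {A L : ℝ} {κ : ℕ}
    (h : ∃ C : ℝ, 0 < C ∧ ∀ (ι : Type) (J : Finset ι) (v β : ι → Vec m), J.Nonempty →
      Mult κ m J v → ∫⁻ t in Icc (-L) L, ∫⁻ x, (∑ i ∈ J, tub A v β i (t, x)) ^ p ≤
        ENNReal.ofReal (C * (J.card : ℝ) ^ (p - 1 / (m : ℝ)))) :
    ∃ C : ℝ, 0 < C ∧ ∀ (ι : Type) (J : Finset ι) (v β : ι → Vec m), J.Nonempty →
      Mult κ m J v → ∫⁻ t in Icc (-L) L, ∫⁻ x, (∑ i ∈ J, tub A v β i (t, x)) ^ q ≤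
        ENNReal.ofReal (C * (J.card : ℝ) ^ (q - 1 / (m : ℝ))) := by
  obtain ⟨C, hC, h⟩ := h
  refine ⟨C, hC, ?_⟩
  intro ι J v β hJ hM
  have hJ0 : (0 : ℝ) < J.card := by exact_mod_cast hJ.card_pos
  calc ∫⁻ t in Icc (-L) L, ∫⁻ x, (∑ i ∈ J, tub A v β i (t, x)) ^ q
      ≤ ∫⁻ t in Icc (-L) L, ∫⁻ x, ENNReal.ofReal ((J.card : ℝ) ^ (q - p)) *
          (∑ i ∈ J, tub A v β i (t, x)) ^ p := by
        refine lintegral_mono fun t => lintegral_mono fun x => ?_
        simp only
        have e3 : (∑ i ∈ J, tub A v β i (t, x)) ^ q =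
            (∑ i ∈ J, tub A v β i (t, x)) ^ (q - p) * (∑ i ∈ J, tub A v β i (t, x)) ^ p := by
          rw [← ENNReal.rpow_add_of_nonneg _ _ (by linarith) hp0.le, sub_add_cancel]
        rw [e3, ← ENNReal.ofReal_rpow_of_pos hJ0]
        refine mul_le_mul' (ENNReal.rpow_le_rpow ?_ (by linarith)) le_rfl
        calc ∑ i ∈ J, tub A v β i (t, x) ≤ ∑ _i ∈ J, 1 :=
              Finset.sum_le_sum fun i _ => tub_le_one A v β i (t, x)
          _ = ENNReal.ofReal (J.card : ℝ) := by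
              rw [Finset.sum_const, nsmul_eq_mul, mul_one, ENNReal.ofReal_natCast]
    _ = ENNReal.ofReal ((J.card : ℝ) ^ (q - p)) *
          ∫⁻ t in Icc (-L) L, ∫⁻ x, (∑ i ∈ J, tub A v β i (t, x)) ^ p := by
        rw [← lintegral_const_mul' _ _ ENNReal.ofReal_ne_top]
        refine lintegral_congr fun t => ?_
        rw [lintegral_const_mul' _ _ ENNReal.ofReal_ne_top]
    _ ≤ ENNReal.ofReal ((J.card : ℝ) ^ (q - p)) * ENNReal.ofReal (C * (J.card : ℝ) ^ (p - 1 / (m : ℝ))) :=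
        mul_le_mul' le_rfl (h ι J v β hJ hM)
    _ = _ := by
        rw [← ENNReal.ofReal_mul (by positivity)]
        congr 1
        have e4 : (J.card : ℝ) ^ (q - 1 / (m : ℝ)) = (J.card : ℝ) ^ (q - p) * (J.card : ℝ) ^ (p - 1 / (m : ℝ)) := by
          rw [← Real.rpow_add hJ0]
          congr 1
          ring
        rw [e4]
        ring

end Pool.Agent.U527.Rs
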