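import Pool.Agent.U527.Rs.Base

set_option autoImplicit false

/-! The base case: with and without a loss. -/

open MeasureTheory Set ENNReal NNReal

namespace Pool.Agent.U527.Rs

open Pool.Agent.R134.Kak

variable {m : ℕ}

/-- The admissible values: the base case in slope dimension `m` holds for all exponents above
`1 + w / m`. -/
def BaseD (m : ℕ) (w : ℝ) : Prop := ∀ q : ℝ, 1 + w / (m : ℝ) < q → ∀ (A L : ℝ) (κ : ℕ),
  ∃ C : ℝ, 0 < C ∧ ∀ (ι : Type) (J : Finset ι) (v β : ι → Vec m), J.Nonempty →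
      Mult κ m J v → ∫⁻ t in Icc (-L) L, ∫⁻ x, (∑ i ∈ J, tub A v β i (t, x)) ^ q ≤
        ENNReal.ofReal (C * (J.card : ℝ) ^ (q - 1 / (m : ℝ)))

open Pool.Agent.Y254.EL (EuF EuL LF LoB euL_of_euF LoB_of_EuL loss_removal)

/-- The base case from Euclidean tubes with a loss. -/
theorem BaseD.of_euL {m : ℕ} (hm : 1 ≤ m) {w : ℝ} (hw : 1 ≤ w) (hwm : w < m)
    (h : ∀ ε : ℝ, 0 < ε → ∃ C : ℝ, 0 ≤ C ∧ EuL m (1 + w / (m : ℝ)) ε C) : BaseD m w := by
  intro q hq A L κ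
  have hm0 : (0 : ℝ) < m := by exact_mod_cast hm
  have hwm' : w / (m : ℝ) < 1 := by rw [div_lt_one hm0]; exact hwm
  have h1 : 1 / (m : ℝ) ≤ w / m := div_le_div_of_nonneg_right hw hm0.le
  have h2 : 0 < 1 / (m : ℝ) := by positivity
  -- an exponent at most two
  have hp1 : 1 + w / (m : ℝ) < min q 2 := lt_min hq (by linarith)
  apply base_large (p := min q 2) (by linarith) (min_le_left _ _)
  apply base_int hm (by linarith)
  intro R hR
  refine loss_removal hm hR (by linarith) hp1 (min_le_right _ _) ?_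
  intro ε hε
  obtain ⟨C, hC, hE⟩ := h ε hε
  exact LoB_of_EuL hm (by linarith) hC hE hR

/-- The base case from Euclidean tubes without a loss. -/
theorem BaseD.of_euF {m : ℕ} (hm : 1 ≤ m) {w : ℝ} (hw : 1 ≤ w) (hwm : w < m)
    (h : ∀ q : ℝ, 1 + w / (m : ℝ) < q → ∃ C : ℝ, 0 < C ∧ EuF m q C) : BaseD m w := by
  have hm0 : (0 : ℝ) < m := by exact_mod_cast hm
  have h0 : 0 ≤ w / (m : ℝ) := div_nonneg (by linarith) hm0.le
  apply BaseD.of_euL hm hw hwm
  intro ε hε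
  have h1 : 0 < ε / ((m : ℝ) + 1) := by positivity
  obtain ⟨C, hC, hE⟩ := h (1 + w / (m : ℝ) + ε / ((m : ℝ) + 1)) (by linarith)
  exact euL_of_euF (by linarith) hε hC hE

/-- Wolff's inequality. -/
theorem BaseD.wolff {m : ℕ} (hm : 2 ≤ m) : BaseD m (2 * (m : ℝ) / ((m : ℝ) + 1)) := by
  have hm2 : (2 : ℝ) ≤ m := by exact_mod_cast hm
  have hm0 : (0 : ℝ) < m := by linarith
  apply BaseD.of_euF (by omega)
  · rw [le_div_iff₀ (by positivity)]
    linarith
  · rw [div_lt_iff₀ (by positivity)]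
    nlinarith
  intro q hq
  have e0 : 1 + 2 * (m : ℝ) / ((m : ℝ) + 1) / (m : ℝ) = 1 + 2 / ((m + 1 : ℕ) : ℝ) := by
    push_cast
    field_simp
  rw [e0] at hq
  obtain ⟨A, hA, hw⟩ := Pool.Agent.Y254.wolff (n := m + 1) (by omega) hq
  refine ⟨A, hA, ?_⟩
  intro δ hδ hδ1 ι _ a e he hsep
  have h2 := hw δ hδ hδ1 a e he hsep
  have e1 : (((m + 1 : ℕ) : ℝ) - 1) = m := by push_cast; ring
  rw [e1, Nat.add_sub_cancel] at h2
  exact h2

/-- The monotonicity. -/
theorem BaseD.mono {m : ℕ} (hm : 1 ≤ m) {w w' : ℝ} (hww : w ≤ w') (h : BaseD m w) : BaseD m w' := by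
  intro q hq
  have hm0 : (0 : ℝ) < m := by exact_mod_cast hm
  have h1 : w / (m : ℝ) ≤ w' / m := div_le_div_of_nonneg_right hww hm0.le
  exact h q (by linarith)

/-- The planar case. -/
theorem BaseD.one : BaseD 1 1 := by
  intro q hq A L κ
  have hq2 : 2 < q := by
    have e : 1 + 1 / ((1 : ℕ) : ℝ) = 2 := by norm_num
    rw [e] at hq
    exact hq
  obtain ⟨C, hC, h⟩ := base (A := max A 1) (L := max L 0) (lt_of_lt_of_le one_pos (le_max_right _ _))
    (le_max_right _ _) κ hq2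
  refine ⟨C, hC, ?_⟩
  intro ι J v β hJ hM
  have e : q - 1 / ((1 : ℕ) : ℝ) = q - 1 := by norm_num
  rw [e]
  refine le_trans ?_ (h ι J v β hJ hM)
  have hsub : Icc (-L) L ⊆ Icc (-(max L 0)) (max L 0) :=
    Icc_subset_Icc (neg_le_neg (le_max_left _ _)) (le_max_left _ _)
  refine (lintegral_mono_set hsub).trans (lintegral_mono fun t => lintegral_mono fun x =>
    ENNReal.rpow_le_rpow (Finset.sum_le_sum fun i _ => ?_) (by linarith))
  unfold tub
  apply indicator_le_indicator_of_subset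
  · intro p hp
    exact le_trans (show ‖p.2 - (β i + p.1 • v i)‖ ≤ A from hp) (le_max_left _ _)
  · intro _
    exact zero_le

/-- Wolff's inequality, including the planar case. -/
theorem BaseD.wolff' {m : ℕ} (hm : 1 ≤ m) : BaseD m (2 * (m : ℝ) / ((m : ℝ) + 1)) := by
  rcases Nat.lt_or_ge m 2 with h | h
  · have hm1 : m = 1 := by omega
    subst hm1
    have e : 2 * ((1 : ℕ) : ℝ) / (((1 : ℕ) : ℝ) + 1) = 1 := by norm_num
    rw [e]
    exact BaseD.one
  · exact BaseD.wolff h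

/-- The bound with constant `C` and exponent `e` of the size of the slopes, for families with the
property `P`. -/
def Bnd (A L : ℝ) (κ d : ℕ) (P : (ι : Type) → Finset ι → (ι → Vec d) → (ι → Vec d) → Prop)
    (e q C : ℝ) : Prop :=
  ∀ B : ℝ, 1 ≤ B → ∀ (ι : Type) (J : Finset ι) (v β : ι → Vec d), J.Nonempty → (∀ i ∈ J, ‖v i‖ ≤ B) →
    P ι J v β → Mult κ d J v → ∫⁻ t in Icc (-L) L, ∫⁻ x, (∑ i ∈ J, tub A v β i (t, x)) ^ q ≤
      ENNReal.ofReal (C * (B ^ (e / d) * (J.card : ℝ) ^ (q - 1 / (d : ℝ))))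

/-- **The base case without a loss.** -/
theorem BaseD.bnd {w : ℝ} (hB : BaseD m w) (A L : ℝ) (κ : ℕ) {q : ℝ} (hq : 1 + w / (m : ℝ) < q) :
    ∃ C : ℝ, 0 < C ∧ Bnd A L κ m (fun _ _ _ _ => True) 0 q C := by
  obtain ⟨C, hC, h⟩ := hB q hq A L κ
  refine ⟨C, hC, ?_⟩
  intro B hB ι J v β hJ _ _ hM
  rw [zero_div, Real.rpow_zero, one_mul]
  exact h ι J v β hJ hM

/-- The number of members of a family with bounded multiplicity and bounded slopes. -/
theorem card_le_of_mult {m κ : ℕ} {ι : Type} {J : Finset ι} {v : ι → Vec m} (hM : Mult κ m J v) {B : ℝ}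
    (hB : 1 ≤ B) (hv : ∀ i ∈ J, ‖v i‖ ≤ B) : (J.card : ℝ) ≤ κ * (6 * B) ^ m := by
  classical
  set cell : ι → Fin m → ℤ := fun i k => ⌊v i k⌋ with hcell
  have hcard : ∀ z ∈ J.image cell, (J.filter (fun i => cell i = z)).card ≤ κ := by
    intro z _
    apply hM _ (Finset.filter_subset _ _)
    intro i hi j hj
    have h1 : cell i = cell j := (Finset.mem_filter.1 hi).2.trans (Finset.mem_filter.1 hj).2.symm
    rw [EuclideanSpace.norm_sq_eq]
    calc ∑ k, ‖(v i - v j) k‖ ^ 2 ≤ ∑ _k : Fin m, (1 : ℝ) := by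
          refine Finset.sum_le_sum fun k _ => ?_
          have h2 : ⌊v i k⌋ = ⌊v j k⌋ := congrFun h1 k
          have h3 := Int.abs_sub_lt_one_of_floor_eq_floor h2
          rw [Real.norm_eq_abs]
          have e4 : (v i - v j) k = v i k - v j k := rfl
          rw [e4]
          have := abs_nonneg (v i k - v j k)
          nlinarith
      _ = m := by simp
  have h1 := Finset.card_le_mul_card_image J κ hcard
  have h2 : J.image cell ⊆ Fintype.piFinset (fun _ : Fin m => Finset.Icc (-⌈B⌉ - 1) ⌈B⌉) := by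
    intro z hz
    obtain ⟨i, hi, rfl⟩ := Finset.mem_image.1 hz
    rw [Fintype.mem_piFinset]
    intro k
    have h3 : |v i k| ≤ B := by
      have := (PiLp.norm_apply_le (v i) k).trans (hv i hi)
      rwa [Real.norm_eq_abs] at this
    obtain ⟨h4, h5⟩ := abs_le.1 h3
    have h6 := Int.le_ceil B
    rw [Finset.mem_Icc]
    constructor
    · show -⌈B⌉ - 1 ≤ ⌊v i k⌋
      rw [Int.le_floor]
      push_cast
      linarith
    · show ⌊v i k⌋ ≤ ⌈B⌉
      have h7 : ⌊v i k⌋ ≤ ⌊B⌋ := Int.floor_le_floor h5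
      exact h7.trans (Int.floor_le_ceil B)
  have h3 := Finset.card_le_card h2
  rw [Fintype.card_piFinset_const, Int.card_Icc] at h3
  have h8 : (((⌈B⌉ + 1 - (-⌈B⌉ - 1)).toNat : ℕ) : ℝ) ≤ 6 * B := by
    have h9 : 0 ≤ ⌈B⌉ := Int.ceil_nonneg (by linarith)
    have h10 : (((⌈B⌉ + 1 - (-⌈B⌉ - 1)).toNat : ℕ) : ℤ) = 2 * ⌈B⌉ + 2 := by
      rw [Int.toNat_of_nonneg (by omega)]
      ring
    have h11 : (((⌈B⌉ + 1 - (-⌈B⌉ - 1)).toNat : ℕ) : ℝ) = 2 * (⌈B⌉ : ℝ) + 2 := by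
      exact_mod_cast h10
    rw [h11]
    have := Int.ceil_lt_add_one B
    linarith
  calc (J.card : ℝ) ≤ ((κ * (J.image cell).card : ℕ) : ℝ) := by exact_mod_cast h1
    _ ≤ ((κ * (⌈B⌉ + 1 - (-⌈B⌉ - 1)).toNat ^ m : ℕ) : ℝ) := by
        exact_mod_cast Nat.mul_le_mul_left κ h3
    _ = κ * (((⌈B⌉ + 1 - (-⌈B⌉ - 1)).toNat : ℕ) : ℝ) ^ m := by push_cast; ring
    _ ≤ κ * (6 * B) ^ m := by gcongr

/-- The integral of a sum of tubes. -/
theorem sum_int_le (A L : ℝ) {ι : Type} (J : Finset ι) (v β : ι → Vec m) :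
    ∫⁻ t in Icc (-L) L, ∫⁻ x, ∑ i ∈ J, tub A v β i (t, x) ≤
      ENNReal.ofReal ((J.card : ℝ) * ((volume (Metric.closedBall (0 : Vec m) A)).toReal * (2 * L))) := by
  have hVt : volume (Metric.closedBall (0 : Vec m) A) ≠ ∞ := measure_closedBall_lt_top.ne
  have h1 : ∀ t : ℝ, ∫⁻ x, ∑ i ∈ J, tub A v β i (t, x) =
      ENNReal.ofReal ((J.card : ℝ) * (volume (Metric.closedBall (0 : Vec m) A)).toReal) := by
    intro t
    have hmi : ∀ i, Measurable (fun x : Vec m => tub A v β i (t, x)) := fun i =>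
      (tub_meas A v β i).comp (measurable_const.prodMk measurable_id)
    rw [lintegral_finsetSum _ (fun i _ => hmi i)]
    simp only [tub_int]
    rw [Finset.sum_const, nsmul_eq_mul, ENNReal.ofReal_mul (Nat.cast_nonneg _), ENNReal.ofReal_natCast,
      ENNReal.ofReal_toReal hVt]
  simp only [h1]
  rw [setLIntegral_const, Real.volume_Icc, ← ENNReal.ofReal_mul (by positivity)]
  apply ENNReal.ofReal_le_ofReal
  apply le_of_eq
  ring

/-- Interpolation. -/
theorem interp (A : ℝ) {L : ℝ} {ι : Type} (J : Finset ι) (v β : ι → Vec m) {p t : ℝ}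
    (hp : 0 ≤ p) (ht0 : 0 < t) (ht1 : t < 1) :
    ∫⁻ s in Icc (-L) L, ∫⁻ x, (∑ i ∈ J, tub A v β i (s, x)) ^ ((1 - t) + p * t) ≤
      (∫⁻ s in Icc (-L) L, ∫⁻ x, ∑ i ∈ J, tub A v β i (s, x)) ^ (1 - t) *
      (∫⁻ s in Icc (-L) L, ∫⁻ x, (∑ i ∈ J, tub A v β i (s, x)) ^ p) ^ t := by
  set F : ℝ × Vec m → ℝ≥0∞ := fun z => ∑ i ∈ J, tub A v β i z with hF
  have hFm : Measurable F := Finset.measurable_fun_sum _ fun i _ => tub_meas A v β i
  have hit : ∀ g : ℝ × Vec m → ℝ≥0∞, Measurable g →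
      ∫⁻ s in Icc (-L) L, ∫⁻ x, g (s, x) = ∫⁻ z, g z ∂((volume.restrict (Icc (-L) L)).prod volume) := by
    intro g hg
    rw [lintegral_prod _ hg.aemeasurable]
  have e1 : ∫⁻ s in Icc (-L) L, ∫⁻ x, (∑ i ∈ J, tub A v β i (s, x)) ^ ((1 - t) + p * t) =
      ∫⁻ z, F z ^ ((1 - t) + p * t) ∂((volume.restrict (Icc (-L) L)).prod volume) :=
    hit (fun z => F z ^ ((1 - t) + p * t)) (hFm.pow_const _)
  have e2 : ∫⁻ s in Icc (-L) L, ∫⁻ x, ∑ i ∈ J, tub A v β i (s, x) =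
      ∫⁻ z, F z ∂((volume.restrict (Icc (-L) L)).prod volume) := hit F hFm
  have e3 : ∫⁻ s in Icc (-L) L, ∫⁻ x, (∑ i ∈ J, tub A v β i (s, x)) ^ p =
      ∫⁻ z, F z ^ p ∂((volume.restrict (Icc (-L) L)).prod volume) :=
    hit (fun z => F z ^ p) (hFm.pow_const _)
  rw [e1, e2, e3]
  have h1 := ENNReal.lintegral_mul_norm_pow_le (μ := (volume.restrict (Icc (-L) L)).prod (volume : Measure (Vec m)))
    hFm.aemeasurable (hFm.pow_const p).aemeasurable (p := 1 - t) (q := t) (by linarith) ht0.le (by ring)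
  refine le_trans (le_of_eq ?_) h1
  refine lintegral_congr fun z => ?_
  rw [ENNReal.rpow_add_of_nonneg _ _ (by linarith) (by positivity), ENNReal.rpow_mul]

/-- **The base case with a loss.** -/
theorem BaseD.bnd_loss (hm : 1 ≤ m) {w : ℝ} (hw : 1 ≤ w) (hB : BaseD m w) (A : ℝ) {L : ℝ} (hL : 0 ≤ L) (κ : ℕ)
    {q : ℝ} (hq : 1 + 1 / (m : ℝ) < q) {μ' : ℝ} (hμ' : (m : ℝ) * ((w - 1) / w) < μ') :
    ∃ C : ℝ, 0 < C ∧ Bnd A L κ m (fun _ _ _ _ => True) μ' q C := by
  classical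
  unfold Bnd
  have hm0 : (0 : ℝ) < m := by exact_mod_cast hm
  have hw0 : 0 < w := by linarith
  obtain ⟨l, hl⟩ : ∃ l : ℝ, l = μ' / m := ⟨_, rfl⟩
  rw [← hl]
  have hlw : (w - 1) / w < l := by
    rw [hl, lt_div_iff₀ hm0]
    linarith
  have hl0 : 0 < l := lt_of_le_of_lt (div_nonneg (by linarith) hw0.le) hlw
  rcases lt_or_ge (1 + w / (m : ℝ)) q with h1 | h1
  · obtain ⟨C, hC, h⟩ := hB q h1 A L κ
    refine ⟨C, hC, ?_⟩
    intro B hB1 ι J v β hJ _ _ hM
    refine (h ι J v β hJ hM).trans (ENNReal.ofReal_le_ofReal ?_)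
    have h2 : 1 ≤ B ^ l := Real.one_le_rpow hB1 hl0.le
    apply mul_le_mul_of_nonneg_left _ hC.le
    exact le_mul_of_one_le_left (by positivity) h2
  · -- a larger exponent
    obtain ⟨w', hw', hwl⟩ : ∃ w' : ℝ, w < w' ∧ 1 - 1 / w' ≤ l := by
      rcases le_or_gt 1 l with h2 | h2
      · refine ⟨w + 1, by linarith, ?_⟩
        have : 0 < 1 / (w + 1) := by positivity
        linarith
      · refine ⟨1 / (1 - l), ?_, ?_⟩
        · rw [lt_div_iff₀ (by linarith)]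
          rw [div_lt_iff₀ hw0] at hlw
          linarith
        · rw [one_div_one_div]
          linarith
    have hw'0 : 0 < w' := by linarith
    have h3 : w / (m : ℝ) < w' / m := div_lt_div_of_pos_right hw' hm0
    obtain ⟨C, hC, h⟩ := hB (1 + w' / (m : ℝ)) (by linarith) A L κ
    obtain ⟨t, ht⟩ : ∃ t : ℝ, t = (q - 1) * m / w' := ⟨_, rfl⟩
    have hq1 : 1 / (m : ℝ) < q - 1 := by linarith
    have hqm : 1 < (q - 1) * m := by
      rw [div_lt_iff₀ hm0] at hq1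
      exact hq1
    have ht0 : 0 < t := by rw [ht]; positivity
    have ht1 : t < 1 := by
      rw [ht, div_lt_one hw'0]
      have h4 : q - 1 ≤ w / m := by linarith
      rw [le_div_iff₀ hm0] at h4
      linarith
    have htw : 1 / w' ≤ t := by
      rw [ht]
      apply div_le_div_of_nonneg_right hqm.le hw'0.le
    have hq2 : (1 - t) + (1 + w' / (m : ℝ)) * t = q := by
      rw [ht]
      field_simp
      ring
    set V : ℝ := (volume (Metric.closedBall (0 : Vec m) A)).toReal with hV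
    have hV0 : 0 ≤ V := ENNReal.toReal_nonneg
    refine ⟨((V * (2 * L)) ^ (1 - t) * C ^ t) * ((κ : ℝ) * 6 ^ m) ^ ((1 - t) / m) + 1, by positivity, ?_⟩
    intro B hB1 ι J v β hJ hv _ hM
    have hB0 : 0 < B := by linarith
    have hJ0 : (0 : ℝ) < J.card := by exact_mod_cast hJ.card_pos
    have h5 := interp A (L := L) J v β (p := 1 + w' / (m : ℝ)) (by positivity) ht0 ht1
    rw [hq2] at h5
    refine h5.trans ?_
    refine (mul_le_mul' (ENNReal.rpow_le_rpow (sum_int_le A L J v β) (by linarith))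
      (ENNReal.rpow_le_rpow (h ι J v β hJ hM) ht0.le)).trans ?_
    rw [ENNReal.ofReal_rpow_of_nonneg (by positivity) (by linarith),
      ENNReal.ofReal_rpow_of_nonneg (by positivity) ht0.le, ← ENNReal.ofReal_mul (by positivity)]
    apply ENNReal.ofReal_le_ofReal
    have hcard := card_le_of_mult hM hB1 hv
    have e1 : (J.card : ℝ) ^ (1 - t) * ((J.card : ℝ) ^ (1 + w' / (m : ℝ) - 1 / (m : ℝ))) ^ t =
        (J.card : ℝ) ^ (q - 1 / (m : ℝ)) * (J.card : ℝ) ^ ((1 - t) / m) := by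
      rw [← Real.rpow_mul hJ0.le, ← Real.rpow_add hJ0, ← Real.rpow_add hJ0]
      congr 1
      rw [← hq2]
      field_simp
      ring
    have e2 : (J.card : ℝ) ^ ((1 - t) / m) ≤ ((κ : ℝ) * 6 ^ m) ^ ((1 - t) / m) * B ^ l := by
      have h6 : 0 ≤ (1 - t) / (m : ℝ) := div_nonneg (by linarith) hm0.le
      calc (J.card : ℝ) ^ ((1 - t) / m) ≤ ((κ : ℝ) * (6 * B) ^ m) ^ ((1 - t) / m) :=
            Real.rpow_le_rpow hJ0.le hcard h6
        _ = ((κ : ℝ) * 6 ^ m) ^ ((1 - t) / m) * B ^ (1 - t) := by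
            rw [mul_pow, ← mul_assoc, Real.mul_rpow (by positivity) (by positivity), ← Real.rpow_natCast B m,
              ← Real.rpow_mul hB0.le]
            congr 2
            field_simp
        _ ≤ _ := by
            apply mul_le_mul_of_nonneg_left _ (by positivity)
            apply Real.rpow_le_rpow_of_exponent_le hB1
            linarith
    have hE : 0 ≤ (V * (2 * L)) ^ (1 - t) * C ^ t := by positivity
    calc ((J.card : ℝ) * (V * (2 * L))) ^ (1 - t) * (C * (J.card : ℝ) ^ (1 + w' / (m : ℝ) - 1 / (m : ℝ))) ^ t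
        = ((V * (2 * L)) ^ (1 - t) * C ^ t) * ((J.card : ℝ) ^ (1 - t) *
            ((J.card : ℝ) ^ (1 + w' / (m : ℝ) - 1 / (m : ℝ))) ^ t) := by
          rw [Real.mul_rpow hJ0.le (by positivity), Real.mul_rpow hC.le (by positivity)]
          ring
      _ = ((V * (2 * L)) ^ (1 - t) * C ^ t) * ((J.card : ℝ) ^ (q - 1 / (m : ℝ)) * (J.card : ℝ) ^ ((1 - t) / m)) := by
          rw [e1]
      _ ≤ ((V * (2 * L)) ^ (1 - t) * C ^ t) * ((J.card : ℝ) ^ (q - 1 / (m : ℝ)) *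
            (((κ : ℝ) * 6 ^ m) ^ ((1 - t) / m) * B ^ l)) := by gcongr
      _ = (((V * (2 * L)) ^ (1 - t) * C ^ t) * ((κ : ℝ) * 6 ^ m) ^ ((1 - t) / m)) *
            (B ^ l * (J.card : ℝ) ^ (q - 1 / (m : ℝ))) := by ring
      _ ≤ _ := by
          apply mul_le_mul_of_nonneg_right _ (by positivity)
          linarith

end Pool.Agent.U527.Rs
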