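import Pool.Agent.U527.Rs.BaseD

set_option autoImplicit false

/-! Splitting off a block of coordinates. -/

open MeasureTheory Set ENNReal NNReal

namespace Pool.Agent.U527.Rs

open Pool.Agent.R134.Kak

variable {k d : ℕ}

/-- The first `k` coordinates. -/
def fst (k d : ℕ) (x : Vec (k + d)) : Vec k := WithLp.toLp 2 (fun j => x (Fin.castAdd d j))

/-- The last `d` coordinates. -/
def snd (k d : ℕ) (x : Vec (k + d)) : Vec d := WithLp.toLp 2 (fun j => x (Fin.natAdd k j))

theorem fst_cont : Continuous (fst k d) := by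
  unfold fst
  apply (PiLp.continuous_toLp 2 _).comp
  exact continuous_pi fun j => by fun_prop

theorem snd_cont : Continuous (snd k d) := by
  unfold snd
  apply (PiLp.continuous_toLp 2 _).comp
  exact continuous_pi fun j => by fun_prop

theorem norm_sq_fs (x : Vec (k + d)) : ‖x‖ ^ 2 = ‖fst k d x‖ ^ 2 + ‖snd k d x‖ ^ 2 := by
  rw [EuclideanSpace.norm_sq_eq, EuclideanSpace.norm_sq_eq, EuclideanSpace.norm_sq_eq, Fin.sum_univ_add]
  simp [fst, snd]

theorem fst_sub (x y : Vec (k + d)) : fst k d (x - y) = fst k d x - fst k d y := rfl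
theorem fst_add (x y : Vec (k + d)) : fst k d (x + y) = fst k d x + fst k d y := rfl
theorem fst_smul (c : ℝ) (x : Vec (k + d)) : fst k d (c • x) = c • fst k d x := rfl
theorem snd_sub (x y : Vec (k + d)) : snd k d (x - y) = snd k d x - snd k d y := rfl
theorem snd_add (x y : Vec (k + d)) : snd k d (x + y) = snd k d x + snd k d y := rfl
theorem snd_smul (c : ℝ) (x : Vec (k + d)) : snd k d (c • x) = c • snd k d x := rfl

theorem norm_fst_le (x : Vec (k + d)) : ‖fst k d x‖ ≤ ‖x‖ := by
  have h := norm_sq_fs x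
  have h2 : ‖fst k d x‖ ^ 2 ≤ ‖x‖ ^ 2 := by nlinarith [sq_nonneg ‖snd k d x‖]
  exact (sq_le_sq₀ (norm_nonneg _) (norm_nonneg _)).1 h2

theorem norm_snd_le (x : Vec (k + d)) : ‖snd k d x‖ ≤ ‖x‖ := by
  have h := norm_sq_fs x
  have h2 : ‖snd k d x‖ ^ 2 ≤ ‖x‖ ^ 2 := by nlinarith [sq_nonneg ‖fst k d x‖]
  exact (sq_le_sq₀ (norm_nonneg _) (norm_nonneg _)).1 h2

theorem norm_le_mul {x : Vec k} {M : ℝ} (hM : 0 ≤ M) (h : ∀ j, |x j| ≤ M) : ‖x‖ ≤ k * M := by
  have h1 : ‖x‖ ^ 2 ≤ (k * M) ^ 2 := by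
    rw [EuclideanSpace.norm_sq_eq]
    calc ∑ j, ‖x j‖ ^ 2 ≤ ∑ _j : Fin k, M ^ 2 := by
          refine Finset.sum_le_sum fun j _ => ?_
          rw [Real.norm_eq_abs]
          exact pow_le_pow_left₀ (abs_nonneg _) (h j) 2
      _ = k * M ^ 2 := by simp
      _ ≤ (k * M) ^ 2 := by
          rw [mul_pow]
          apply mul_le_mul_of_nonneg_right _ (sq_nonneg M)
          rcases Nat.eq_zero_or_pos k with h | h
          · rw [h]; simp
          · have : (1 : ℝ) ≤ k := by exact_mod_cast h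
            nlinarith
  exact (sq_le_sq₀ (norm_nonneg _) (by positivity)).1 h1

theorem lint_fs (G : Vec k → Vec d → ℝ≥0∞) (hG : Measurable (fun p : Vec k × Vec d => G p.1 p.2)) :
    ∫⁻ x : Vec (k + d), G (fst k d x) (snd k d x) = ∫⁻ a : Vec k, ∫⁻ y : Vec d, G a y := by
  have hm1 : Measurable (fun x : Vec (k + d) => G (fst k d x) (snd k d x)) :=
    hG.comp (fst_cont.measurable.prodMk snd_cont.measurable)
  have h1 := (PiLp.volume_preserving_toLp (Fin (k + d))).lintegral_comp hm1
  rw [← h1]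
  have hm2 : Measurable (fun p : (Fin k → ℝ) × (Fin d → ℝ) => G (WithLp.toLp 2 p.1) (WithLp.toLp 2 p.2)) := by
    have : Measurable (fun p : (Fin k → ℝ) × (Fin d → ℝ) =>
        ((WithLp.toLp 2 p.1 : Vec k), (WithLp.toLp 2 p.2 : Vec d))) :=
      ((PiLp.continuous_toLp 2 _).measurable.comp measurable_fst).prodMk
        ((PiLp.continuous_toLp 2 _).measurable.comp measurable_snd)
    exact hG.comp this
  have hmp : MeasurePreserving (fun x : Fin (k + d) → ℝ =>
      ((fun i => x (Fin.castAdd d i), fun j => x (Fin.natAdd k j)) : (Fin k → ℝ) × (Fin d → ℝ))) volume volume :=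
    (volume_measurePreserving_sumPiEquivProdPi (fun _ : Fin k ⊕ Fin d => ℝ)).comp
      ((volume_measurePreserving_piCongrLeft (fun _ : Fin (k + d) => ℝ) finSumFinEquiv).symm
        (MeasurableEquiv.piCongrLeft (fun _ : Fin (k + d) => ℝ) finSumFinEquiv))
  have h2 := hmp.lintegral_comp hm2
  refine Eq.trans ?_ (h2.trans ?_)
  · rfl
  · rw [Measure.volume_eq_prod, lintegral_prod _ hm2.aemeasurable]
    have hm4 : Measurable (fun a : Vec k => ∫⁻ y : Vec d, G a y) :=
      Measurable.lintegral_prod_right' (f := fun p : Vec k × Vec d => G p.1 p.2) hG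
    rw [← (PiLp.volume_preserving_toLp (Fin k)).lintegral_comp hm4]
    refine lintegral_congr fun a => ?_
    have hm3 : Measurable (fun y : Vec d => G (WithLp.toLp 2 a) y) := hG.comp (measurable_const.prodMk measurable_id)
    exact (PiLp.volume_preserving_toLp (Fin d)).lintegral_comp hm3

theorem lint_rot_fs (U : Vec (k + d) ≃ₗᵢ[ℝ] Vec (k + d)) (G : Vec k → Vec d → ℝ≥0∞)
    (hG : Measurable (fun p : Vec k × Vec d => G p.1 p.2)) :
    ∫⁻ x : Vec (k + d), G (fst k d (U x)) (snd k d (U x)) = ∫⁻ a : Vec k, ∫⁻ y : Vec d, G a y := by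
  rw [← lint_fs G hG]
  have hm1 : Measurable (fun x : Vec (k + d) => G (fst k d x) (snd k d x)) :=
    hG.comp (fst_cont.measurable.prodMk snd_cont.measurable)
  exact U.measurePreserving.lintegral_comp hm1

/-- The cell of a vector. -/
noncomputable def cellv (x : Vec k) : Fin k → ℤ := fun j => ⌊x j⌋

/-- The corner of a cell. -/
noncomputable def corner (z : Fin k → ℤ) : Vec k := WithLp.toLp 2 (fun j => ((z j : ℤ) : ℝ))

theorem corner_near (x : Vec k) (j : Fin k) : |x j - corner (cellv x) j| ≤ 1 := by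
  show |x j - ((⌊x j⌋ : ℤ) : ℝ)| ≤ 1
  rw [abs_of_nonneg (sub_nonneg.2 (Int.floor_le _))]
  linarith [Int.lt_floor_add_one (x j)]

theorem cell_abs {x y : Vec k} (h : cellv x = cellv y) (j : Fin k) : |x j - y j| ≤ 1 :=
  (Int.abs_sub_lt_one_of_floor_eq_floor (congrFun h j)).le

theorem cell_norm {x y : Vec k} (h : cellv x = cellv y) : ‖x - y‖ ^ 2 ≤ k := by
  rw [EuclideanSpace.norm_sq_eq]
  calc ∑ j, ‖(x - y) j‖ ^ 2 ≤ ∑ _j : Fin k, (1 : ℝ) := by
        refine Finset.sum_le_sum fun j _ => ?_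
        have h3 := cell_abs h j
        rw [Real.norm_eq_abs]
        have e4 : (x - y) j = x j - y j := rfl
        rw [e4]
        have := abs_nonneg (x j - y j)
        nlinarith
    _ = k := by simp

theorem corner_sep {z z' : Fin k → ℤ} (h : z ≠ z') : 1 ≤ ‖corner z - corner z'‖ := by
  obtain ⟨j, hj⟩ := Function.ne_iff.1 h
  have h1 : (1 : ℤ) ≤ |z j - z' j| := Int.one_le_abs (sub_ne_zero.2 hj)
  have h2 : (1 : ℝ) ≤ |((z j : ℤ) : ℝ) - ((z' j : ℤ) : ℝ)| := by exact_mod_cast h1
  calc (1 : ℝ) ≤ |((z j : ℤ) : ℝ) - ((z' j : ℤ) : ℝ)| := h2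
    _ = ‖(corner z - corner z') j‖ := rfl
    _ ≤ _ := PiLp.norm_apply_le _ j

/-- The corners of cells have bounded multiplicity. -/
theorem corner_mult (S : Finset (Fin k → ℤ)) : Mult ((2 * (k + 2)) ^ k) k S corner := by
  intro J' _ hJ'
  exact pack J' corner (fun i _ j _ hij => corner_sep hij) hJ'

open Classical in
/-- The position of a member of the class `z`. -/
noncomputable def pickv {ι : Type} (J : Finset ι) (cl : ι → Fin k → ℤ) (b : ι → Vec k) (z : Fin k → ℤ) : Vec k :=
  if h : ∃ i, i ∈ J ∧ cl i = z then b h.choose else 0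

theorem pickv_spec {ι : Type} {J : Finset ι} {a b : ι → Vec k} {K : ℝ}
    (h : ∀ i ∈ J, ∀ i' ∈ J, (∀ j, |a i j - a i' j| ≤ 1) → ∀ j, |b i j - b i' j| ≤ K) {i : ι} (hi : i ∈ J)
    (j : Fin k) : |b i j - pickv J (fun i => cellv (a i)) b (cellv (a i)) j| ≤ K := by
  have hex : ∃ i', i' ∈ J ∧ cellv (a i') = cellv (a i) := ⟨i, hi, rfl⟩
  have e : pickv J (fun i => cellv (a i)) b (cellv (a i)) = b hex.choose := by
    unfold pickv
    rw [dif_pos hex]
  rw [e]
  apply h i hi _ hex.choose_spec.1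
  intro j
  exact cell_abs hex.choose_spec.2.symm j

/-- A tube is contained in the product of a tube of the cell with a tube in lower dimension. -/
theorem tub_le_fs {ι : Type} {A K L : ℝ} (hK : 0 ≤ K) (hL : 0 ≤ L) {J : Finset ι} {v β : ι → Vec (k + d)}
    (U : Vec (k + d) ≃ₗᵢ[ℝ] Vec (k + d))
    (h : ∀ i ∈ J, ∀ i' ∈ J, (∀ j, |fst k d (U (v i)) j - fst k d (U (v i')) j| ≤ 1) →
      ∀ j, |fst k d (U (β i)) j - fst k d (U (β i')) j| ≤ K)
    {i : ι} (hi : i ∈ J) {t : ℝ} (ht : |t| ≤ L) (x : Vec (k + d)) :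
    tub A v β i (t, x) ≤
      tub (A + k * (K + L)) corner (pickv J (fun i => cellv (fst k d (U (v i)))) (fun i => fst k d (U (β i))))
        (cellv (fst k d (U (v i)))) (t, fst k d (U x)) *
        tub A (fun i => snd k d (U (v i))) (fun i => snd k d (U (β i))) i (t, snd k d (U x)) := by
  unfold tub
  by_cases hx : ‖x - (β i + t • v i)‖ ≤ A
  · have hy : ‖U x - (U (β i) + t • U (v i))‖ ≤ A := by
      rw [← map_smul, ← map_add, ← map_sub, U.norm_map]
      exact hx
    have h0 := (norm_fst_le _).trans hy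
    rw [fst_sub, fst_add, fst_smul] at h0
    have h1 := (norm_snd_le _).trans hy
    rw [snd_sub, snd_add, snd_smul] at h1
    set P : (Fin k → ℤ) → Vec k := pickv J (fun i => cellv (fst k d (U (v i)))) (fun i => fst k d (U (β i))) with hP
    set z : Fin k → ℤ := cellv (fst k d (U (v i))) with hz
    have h2 : ‖(fst k d (U (β i)) - P z) + t • (fst k d (U (v i)) - corner z)‖ ≤ k * (K + L) := by
      apply norm_le_mul (by linarith)
      intro j
      have a1 := pickv_spec (a := fun i => fst k d (U (v i))) (b := fun i => fst k d (U (β i))) h hi j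
      have a2 := corner_near (fst k d (U (v i))) j
      have a3 : |t * (fst k d (U (v i)) j - corner z j)| ≤ L := by
        rw [abs_mul]
        calc |t| * |fst k d (U (v i)) j - corner z j| ≤ L * 1 := mul_le_mul ht a2 (abs_nonneg _) hL
          _ = L := mul_one L
      have e1 : ((fst k d (U (β i)) - P z) + t • (fst k d (U (v i)) - corner z)) j =
          (fst k d (U (β i)) j - P z j) + t * (fst k d (U (v i)) j - corner z j) := rfl
      rw [e1]
      exact (abs_add_le _ _).trans (add_le_add a1 a3)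
    rw [indicator_of_mem (show (t, snd k d (U x)) ∈ {p : ℝ × Vec d |
        ‖p.2 - (snd k d (U (β i)) + p.1 • snd k d (U (v i)))‖ ≤ A} from h1),
      indicator_of_mem (show (t, fst k d (U x)) ∈ {p : ℝ × Vec k |
        ‖p.2 - (P z + p.1 • corner z)‖ ≤ A + k * (K + L)} from ?_), one_mul]
    · exact indicator_le_self' (fun _ _ => zero_le) _
    · show ‖fst k d (U x) - (P z + t • corner z)‖ ≤ A + k * (K + L)
      have e : fst k d (U x) - (P z + t • corner z) =
          (fst k d (U x) - (fst k d (U (β i)) + t • fst k d (U (v i)))) +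
          ((fst k d (U (β i)) - P z) + t • (fst k d (U (v i)) - corner z)) := by
        rw [smul_sub]
        abel
      rw [e]
      exact (norm_add_le _ _).trans (add_le_add h0 h2)
  · rw [indicator_of_notMem (show (t, x) ∉ {p : ℝ × Vec (k + d) | ‖p.2 - (β i + p.1 • v i)‖ ≤ A} from hx)]
    exact zero_le

theorem class_snd {κ : ℕ} {ι : Type} {J : Finset ι} {v : ι → Vec (k + d)} (h : Mult κ (k + d) J v)
    (U : Vec (k + d) ≃ₗᵢ[ℝ] Vec (k + d)) (z : Fin k → ℤ) :
    Mult κ d (J.filter (fun i => cellv (fst k d (U (v i))) = z)) (fun i => snd k d (U (v i))) := by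
  intro J' hJ' h2
  apply h J' (hJ'.trans (Finset.filter_subset _ _))
  intro i hi i' hi'
  have h3 := h2 i hi i' hi'
  have h4 : ‖v i - v i'‖ = ‖U (v i) - U (v i')‖ := by rw [← map_sub, U.norm_map]
  rw [h4, norm_sq_fs, snd_sub, fst_sub]
  have e1 : cellv (fst k d (U (v i))) = z := (Finset.mem_filter.1 (hJ' hi)).2
  have e2 : cellv (fst k d (U (v i'))) = z := (Finset.mem_filter.1 (hJ' hi')).2
  have h5 := cell_norm (e1.trans e2.symm)
  push_cast
  linarith

end Pool.Agent.U527.Rs
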