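import Pool.Agent.U527.Rs.Fam
import Pool.Agent.R134.Kak.Boxes

set_option autoImplicit false

/-! The integral estimates for iterated skew products of families of boxes. -/

open MeasureTheory Set ENNReal NNReal Metric

namespace Pool.Agent.U527.Rs

open Pool.Agent.R134.Kak
open Pool.Agent.H810R3.Tub (Space box nor Fb Fb_measurable box_coord)

variable {d : ℕ}

/-- From scale one to boxes. -/
theorem box_of_core {q : ℝ} (hq0 : 0 < q) {σ : ℝ} (hσ : 0 < σ) (hσ1 : σ ≤ 1) (S : ℝ≥0)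
    {N : ℝ} (hN : 1 ≤ N) {ι : Type} [Fintype ι] (ω β : ι → Vec d) (s : ι → ℝ)
    (f : ι → Fin d → Space d) (hω : ∀ i, ‖ω i‖ ≤ 1)
    (hf : ∀ i, Orthonormal ℝ (Fin.cons (nor (ω i)) (f i) : Fin (d + 1) → Space d))
    (hs : ∀ i, |s i| ≤ S * N ^ 2) {X : ℝ}
    (hcore : ∫⁻ t in Icc (-(2 * ((1 + (d : ℝ)) / 2 + S))) (2 * ((1 + (d : ℝ)) / 2 + S)), ∫⁻ x,
      (∑ i ∈ Finset.univ, tub (2 * (d : ℝ)) (fun i => (N / σ) • ω i) (fun i => N⁻¹ • β i) i (t, x)) ^ q ≤
        ENNReal.ofReal X) :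
    ∫⁻ y, Fb N ω f (fun i => WithLp.toLp 2 (β i + s i • (-(2 : ℝ) • ω i), s i)) y ^ q ≤
      ENNReal.ofReal (N ^ (d + 2) / (2 * σ) * X) := by
  classical
  have hN0 : 0 < N := by linarith
  have hS0 : (0 : ℝ) ≤ S := S.2
  obtain ⟨L, hL⟩ : ∃ L : ℝ, L = 2 * ((1 + (d : ℝ)) / 2 + S) := ⟨_, rfl⟩
  rw [← hL] at hcore
  have hL0 : 0 ≤ L := by rw [hL]; positivity
  set a : ι → Space d := fun i => WithLp.toLp 2 (β i + s i • (-(2 : ℝ) • ω i), s i) with ha
  set c : ℝ := -(2 * σ) / N ^ 2 with hc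
  have hc0 : c ≠ 0 := by
    rw [hc]
    apply div_ne_zero _ (by positivity)
    linarith
  have hterm : ∀ t x i, (WithLp.toLp 2 (x, t) : Space d) ∈ box N (nor (ω i)) (f i) (a i) →
      c * t ∈ Icc (-L) L ∧
        tub (2 * (d : ℝ)) (fun i => (N / σ) • ω i) (fun i => N⁻¹ • β i) i (c * t, N⁻¹ • x) = 1 := by
    intro t x i hy
    obtain ⟨h1, h2⟩ := box_coord hN (hω i) (hf i) hy
    have e1 : ((WithLp.toLp 2 (x, t) : Space d) - a i).snd = t - s i := rfl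
    have e2 : ((WithLp.toLp 2 (x, t) : Space d) - a i).fst =
        x - (β i + s i • (-(2 : ℝ) • ω i)) := rfl
    rw [e1] at h1 h2
    rw [e2] at h1
    push_cast at h1 h2
    have hN2 : 0 < N ^ 2 := by positivity
    constructor
    · have ht : |t| ≤ ((1 + (d : ℝ)) / 2 + S) * N ^ 2 := by
        have h3 : |t| ≤ |t - s i| + |s i| := by
          have := abs_add_le (t - s i) (s i)
          rwa [sub_add_cancel] at this
        have h4 := hs i
        nlinarith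
      have h5 : |c * t| ≤ L := by
        rw [abs_mul, hc, abs_div, abs_neg, abs_of_pos (by positivity : 0 < 2 * σ), abs_of_pos hN2,
          div_mul_eq_mul_div, div_le_iff₀ hN2]
        calc 2 * σ * |t| ≤ 2 * 1 * (((1 + (d : ℝ)) / 2 + S) * N ^ 2) := by gcongr
          _ = L * N ^ 2 := by rw [hL]; ring
      exact abs_le.1 h5
    · unfold tub
      apply indicator_of_mem
      show ‖N⁻¹ • x - (N⁻¹ • β i + (c * t) • (N / σ) • ω i)‖ ≤ 2 * (d : ℝ)
      have e3 : N⁻¹ • x - (N⁻¹ • β i + (c * t) • (N / σ) • ω i) =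
          N⁻¹ • (x - (β i + s i • (-(2 : ℝ) • ω i)) + (2 * (t - s i)) • ω i) := by
        have e4 : (c * t) • (N / σ) • ω i = (N⁻¹ * (-(2 * t))) • ω i := by
          rw [smul_smul]
          congr 1
          rw [hc]
          field_simp
        rw [e4]
        module
      rw [e3, norm_smul, norm_inv, Real.norm_eq_abs, abs_of_pos hN0, inv_mul_le_iff₀ hN0]
      linarith
  set v' : ι → Vec d := fun i => (N / σ) • ω i with hv'
  set β' : ι → Vec d := fun i => N⁻¹ • β i with hβ'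
  have hIm : Measurable (fun τ : ℝ => ∫⁻ x : Vec d, (∑ i, tub (2 * (d : ℝ)) v' β' i (τ, x)) ^ q) :=
    Measurable.lintegral_prod_right' (sum_tub_meas (2 * (d : ℝ)) v' β' q)
  set H : ℝ → ℝ≥0∞ := (Icc (-L) L).indicator (fun τ => ∫⁻ x : Vec d,
    (∑ i, tub (2 * (d : ℝ)) v' β' i (τ, N⁻¹ • x)) ^ q) with hH
  have hHe : H = (Icc (-L) L).indicator (fun τ => ENNReal.ofReal (N ^ d) *
      ∫⁻ x : Vec d, (∑ i, tub (2 * (d : ℝ)) v' β' i (τ, x)) ^ q) := by
    have h1 : (fun τ => ∫⁻ x : Vec d, (∑ i, tub (2 * (d : ℝ)) v' β' i (τ, N⁻¹ • x)) ^ q) =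
        (fun τ => ENNReal.ofReal (N ^ d) *
      ∫⁻ x : Vec d, (∑ i, tub (2 * (d : ℝ)) v' β' i (τ, x)) ^ q) := by
      funext τ
      exact lint_scale hN0 _ (sum_tub_meas' (2 * (d : ℝ)) v' β' q τ)
    rw [hH, h1]
  have hHm : Measurable H := by
    rw [hHe]
    exact (hIm.const_mul _).indicator measurableSet_Icc
  have hslice : ∀ t, ∫⁻ x : Vec d, Fb N ω f a (WithLp.toLp 2 (x, t)) ^ q ≤ H (c * t) := by
    intro t
    by_cases ht : c * t ∈ Icc (-L) L
    · rw [hH, indicator_of_mem ht]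
      refine lintegral_mono fun x => ENNReal.rpow_le_rpow ?_ hq0.le
      unfold Fb
      refine Finset.sum_le_sum fun i _ => ?_
      by_cases hm : (WithLp.toLp 2 (x, t) : Space d) ∈ box N (nor (ω i)) (f i) (a i)
      · rw [indicator_of_mem hm, (hterm t x i hm).2]
      · rw [indicator_of_notMem hm]
        exact zero_le
    · rw [hH, indicator_of_notMem ht]
      have : ∀ x : Vec d, Fb N ω f a (WithLp.toLp 2 (x, t)) ^ q = 0 := by
        intro x
        have h0 : Fb N ω f a (WithLp.toLp 2 (x, t)) = 0 := by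
          unfold Fb
          refine Finset.sum_eq_zero fun i _ => ?_
          exact indicator_of_notMem (fun hm => ht (hterm t x i hm).1) _
        rw [h0, ENNReal.zero_rpow_of_pos hq0]
      simp only [this, lintegral_zero]
      exact le_refl _
  rw [fub ((Fb_measurable N ω f a).pow_const q)]
  calc ∫⁻ t : ℝ, ∫⁻ x : Vec d, Fb N ω f a (WithLp.toLp 2 (x, t)) ^ q
      ≤ ∫⁻ t : ℝ, H (c * t) := lintegral_mono hslice
    _ = ENNReal.ofReal |c⁻¹| * ∫⁻ t : ℝ, H t := lint_time hc0 H hHm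
    _ = ENNReal.ofReal |c⁻¹| * (ENNReal.ofReal (N ^ d) *
          ∫⁻ t in Icc (-L) L, ∫⁻ x : Vec d, (∑ i, tub (2 * (d : ℝ)) v' β' i (t, x)) ^ q) := by
        rw [hHe, lintegral_indicator measurableSet_Icc, lintegral_const_mul _ hIm]
    _ ≤ ENNReal.ofReal |c⁻¹| * (ENNReal.ofReal (N ^ d) * ENNReal.ofReal X) :=
        mul_le_mul' le_rfl (mul_le_mul' le_rfl hcore)
    _ = _ := by
        rw [← ENNReal.ofReal_mul (by positivity), ← ENNReal.ofReal_mul (by positivity)]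
        congr 1
        have e5 : |c⁻¹| = N ^ 2 / (2 * σ) := by
          rw [hc, inv_div, abs_div, abs_neg, abs_of_pos (by positivity : 0 < 2 * σ),
            abs_of_pos (by positivity : 0 < N ^ 2)]
        rw [e5]
        field_simp
        ring

/-- The multiplicity of the scaled centres. -/
theorem mult_scaled {σ N : ℝ} (hσ : 0 < σ) (hN : 0 < N) {ι : Type} [Fintype ι] (ω : ι → Vec d)
    (hsep : ∀ i j, i ≠ j → σ / N ≤ ‖ω i - ω j‖) :
    Mult ((2 * (d + 2)) ^ d) d Finset.univ (fun i => (N / σ) • ω i) := by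
  intro J' _ hJ'
  exact pack J' (fun i => (N / σ) • ω i) (by
    intro i _ j _ hij
    rw [← smul_sub, norm_smul, Real.norm_eq_abs, abs_of_pos (by positivity)]
    have h1 := hsep i j hij
    calc (1 : ℝ) = N / σ * (σ / N) := by field_simp
      _ ≤ _ := mul_le_mul_of_nonneg_left h1 (by positivity)) hJ'

/-- **The integral estimate without loss.** -/
theorem box_intD (hd : 1 ≤ d) {m : ℕ} {w : ℕ → ℝ} (hw : Adm m w) {W : ℝ} (hW1 : 1 ≤ W)
    (hW : ∀ k, 1 ≤ k → k ≤ m → w k ≤ W) {q : ℝ} (hq : 1 + W / (d : ℝ) < q)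
    {σ : ℝ} (hσ : 0 < σ) (hσ1 : σ ≤ 1) (K S : ℝ≥0) :
    ∃ E : ℝ, 0 < E ∧ ∀ N : ℝ, 1 ≤ N → ∀ (ι : Type) [Fintype ι] [Nonempty ι] (ω β : ι → Vec d) (h : ι → ℝ)
      (f : ι → Fin d → Space d),
    (∀ i, ‖ω i‖ ≤ 1) → (∀ i j, i ≠ j → σ / N ≤ ‖ω i - ω j‖) →
    (∀ i, Orthonormal ℝ (Fin.cons (nor (ω i)) (f i) : Fin (d + 1) → Space d)) →
    (∀ i, |h i| ≤ S * N ^ 2) →
    (∃ l : ℝ, RedB K m w l d Finset.univ (fun i => (N / σ) • ω i) (fun i => N⁻¹ • β i)) →
    ∫⁻ y, Fb N ω f (fun i => WithLp.toLp 2 (β i + h i • (-(2 : ℝ) • ω i), h i)) y ^ q ≤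
      ENNReal.ofReal (E * N ^ (d + 2) * (Fintype.card ι : ℝ) ^ (q - 1 / (d : ℝ))) := by
  have hd0 : (0 : ℝ) < d := by exact_mod_cast hd
  have hq0 : 0 < q := by
    have : 0 ≤ W / (d : ℝ) := div_nonneg (by linarith) hd0.le
    linarith
  have hS0 : (0 : ℝ) ≤ S := S.2
  obtain ⟨C, hC, h⟩ := fam_bnd (K := K) (A := 2 * (d : ℝ)) (L := 2 * ((1 + (d : ℝ)) / 2 + S))
    K.2 (by positivity) (by positivity) ((2 * (d + 2)) ^ d) hw hW1 hW d q hq
  refine ⟨C / (2 * σ), by positivity, ?_⟩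
  intro N hN ι _ _ ω β t f hω hsep hf hs hR
  have hN0 : 0 < N := by linarith
  have hB1 : 1 ≤ N / σ := by
    rw [le_div_iff₀ hσ]
    linarith
  have hcore := h (N / σ) hB1 ι Finset.univ (fun i => (N / σ) • ω i) _ Finset.univ_nonempty (by
    intro i _
    rw [norm_smul, Real.norm_eq_abs, abs_of_pos (by positivity)]
    exact mul_le_of_le_one_right (by positivity) (hω i)) hR (mult_scaled hσ (by linarith) ω hsep)
  rw [Finset.card_univ, zero_div, Real.rpow_zero, one_mul] at hcore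
  refine (box_of_core hq0 hσ hσ1 S hN ω β t f hω hf hs hcore).trans (le_of_eq ?_)
  congr 1
  ring

/-- **The integral estimate with a loss.** -/
theorem box_intL (hd : 1 ≤ d) {m : ℕ} {w : ℕ → ℝ} (hw : Adm m w) {l : ℝ} {q : ℝ} (hq : 1 + 1 / (d : ℝ) < q)
    {μ : ℝ} (hμ : l < μ) {σ : ℝ} (hσ : 0 < σ) (hσ1 : σ ≤ 1) (K S : ℝ≥0) :
    ∃ E : ℝ, 0 < E ∧ ∀ N : ℝ, 1 ≤ N → ∀ (ι : Type) [Fintype ι] [Nonempty ι] (ω β : ι → Vec d) (h : ι → ℝ)
      (f : ι → Fin d → Space d),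
    (∀ i, ‖ω i‖ ≤ 1) → (∀ i j, i ≠ j → σ / N ≤ ‖ω i - ω j‖) →
    (∀ i, Orthonormal ℝ (Fin.cons (nor (ω i)) (f i) : Fin (d + 1) → Space d)) →
    (∀ i, |h i| ≤ S * N ^ 2) →
    RedB K m w l d Finset.univ (fun i => (N / σ) • ω i) (fun i => N⁻¹ • β i) →
    ∫⁻ y, Fb N ω f (fun i => WithLp.toLp 2 (β i + h i • (-(2 : ℝ) • ω i), h i)) y ^ q ≤
      ENNReal.ofReal (E * N ^ (μ / d) * N ^ (d + 2) * (Fintype.card ι : ℝ) ^ (q - 1 / (d : ℝ))) := by
  have hd0 : (0 : ℝ) < d := by exact_mod_cast hd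
  have hq0 : 0 < q := by
    have : 0 < 1 / (d : ℝ) := by positivity
    linarith
  have hS0 : (0 : ℝ) ≤ S := S.2
  obtain ⟨C, hC, h⟩ := fam_loss (K := K) (A := 2 * (d : ℝ)) (L := 2 * ((1 + (d : ℝ)) / 2 + S))
    K.2 (by positivity) (by positivity) ((2 * (d + 2)) ^ d) hw d l q hq μ hμ
  refine ⟨C / (2 * σ) * (σ⁻¹) ^ (μ / d), by positivity, ?_⟩
  intro N hN ι _ _ ω β t f hω hsep hf hs hR
  have hN0 : 0 < N := by linarith
  have hB1 : 1 ≤ N / σ := by
    rw [le_div_iff₀ hσ]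
    linarith
  have hcore := h (N / σ) hB1 ι Finset.univ (fun i => (N / σ) • ω i) _ Finset.univ_nonempty (by
    intro i _
    rw [norm_smul, Real.norm_eq_abs, abs_of_pos (by positivity)]
    exact mul_le_of_le_one_right (by positivity) (hω i)) hR (mult_scaled hσ (by linarith) ω hsep)
  rw [Finset.card_univ] at hcore
  refine (box_of_core hq0 hσ hσ1 S hN ω β t f hω hf hs hcore).trans (le_of_eq ?_)
  congr 1
  rw [div_eq_mul_inv N σ, Real.mul_rpow hN0.le (by positivity)]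
  ring

end Pool.Agent.U527.Rs
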