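import Pool.Agent.U527.Rs.StepB
import Pool.Agent.Y254.HK.FinalG

set_option autoImplicit false

/-! Iterated skew products of families. -/

open MeasureTheory Set ENNReal NNReal

namespace Pool.Agent.U527.Rs

open Pool.Agent.R134.Kak

/-- The loss of a block of `k` coordinates. -/
noncomputable def bloss (w : ℕ → ℝ) (k : ℕ) : ℝ := k * ((w k - 1) / w k)

/-- Iterated skew products, with blocks of size at most `m` and total loss at most `l`. -/
inductive RedB (K : ℝ) (m : ℕ) (w : ℕ → ℝ) {ι : Type} :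
    (l : ℝ) → (d : ℕ) → Finset ι → (ι → Vec d) → (ι → Vec d) → Prop
  | free (l : ℝ) (d : ℕ) (J : Finset ι) (v β : ι → Vec d) (h1 : 1 ≤ d) (hd : d ≤ m) (hl : bloss w d ≤ l) :
      RedB K m w l d J v β
  | split (l l' : ℝ) (k d : ℕ) (J : Finset ι) (v β : ι → Vec (k + d)) (hk : 1 ≤ k) (hkm : k ≤ m)
      (hl : bloss w k + l' ≤ l) (U : Vec (k + d) ≃ₗᵢ[ℝ] Vec (k + d))
      (h1 : ∀ i ∈ J, ∀ i' ∈ J, (∀ j, |fst k d (U (v i)) j - fst k d (U (v i')) j| ≤ 1) →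
        ∀ j, |fst k d (U (β i)) j - fst k d (U (β i')) j| ≤ K)
      (h2 : ∀ z : Fin k → ℤ, RedB K m w l' d (J.filter (fun i => cellv (fst k d (U (v i))) = z))
        (fun i => snd k d (U (v i))) (fun i => snd k d (U (β i)))) : RedB K m w l (k + d) J v β

theorem RedB.mono {K : ℝ} {m : ℕ} {w : ℕ → ℝ} {ι : Type} {l l₂ : ℝ} {d : ℕ} {J : Finset ι} {v β : ι → Vec d}
    (h : RedB K m w l d J v β) (hl : l ≤ l₂) : RedB K m w l₂ d J v β := by
  cases h with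
  | free _ _ _ _ _ h1 hd hl' => exact RedB.free _ _ _ _ _ h1 hd (hl'.trans hl)
  | split _ l' k d _ _ _ hk hkm hl' U h1 h2 => exact RedB.split _ l' k d _ _ _ hk hkm (hl'.trans hl) U h1 h2

theorem RedB.pos {K : ℝ} {m : ℕ} {w : ℕ → ℝ} {ι : Type} {l : ℝ} {d : ℕ} {J : Finset ι} {v β : ι → Vec d}
    (h : RedB K m w l d J v β) (hw : ∀ k, 1 ≤ k → k ≤ m → 1 ≤ w k) : 1 ≤ d ∧ 0 ≤ l := by
  have hb : ∀ k, 1 ≤ k → k ≤ m → 0 ≤ bloss w k := by
    intro k hk hkm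
    have := hw k hk hkm
    unfold bloss
    exact mul_nonneg (Nat.cast_nonneg _) (div_nonneg (by linarith) (by linarith))
  induction h with
  | free l d J v β h1 hd hl => exact ⟨h1, (hb d h1 hd).trans hl⟩
  | split l l' k d J v β hk hkm hl U h1 h2 ih =>
    obtain ⟨h3, h4⟩ := ih (fun _ => 0)
    exact ⟨by omega, by linarith [hb k hk hkm]⟩

theorem RedB.inv {K : ℝ} {m : ℕ} {w : ℕ → ℝ} {ι : Type} {l : ℝ} {D : ℕ} {J : Finset ι} {v β : ι → Vec D}
    (h : RedB K m w l D J v β) (Q : Prop) (hF : 1 ≤ D → D ≤ m → bloss w D ≤ l → Q)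
    (hS : ∀ (k d : ℕ) (_ : k + d = D) (v' β' : ι → Vec (k + d)), 1 ≤ k → k ≤ m →
      HEq v' v → HEq β' β → SplitB K k d (fun _ J v β => RedB K m w (l - bloss w k) d J v β) ι J v' β' → Q) :
    Q := by
  cases h with
  | free _ _ _ _ _ h1 hd hl => exact hF h1 hd hl
  | split _ l' k d _ _ _ hk hkm hl U h1 h2 =>
    exact hS k d rfl _ _ hk hkm HEq.rfl HEq.rfl ⟨U, h1, fun z => (h2 z).mono (by linarith)⟩

/-- The constants of the finitely many cases are added. -/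
theorem bnd_glue {K A L : ℝ} {κ D : ℕ} {e q : ℝ}
    {R : (ι : Type) → Finset ι → (ι → Vec D) → (ι → Vec D) → Prop} {F : Prop} {Sp : ℕ → ℕ → Prop}
    {P : (k d : ℕ) → (ι : Type) → Finset ι → (ι → Vec d) → (ι → Vec d) → Prop}
    (hR : ∀ (ι : Type) (J : Finset ι) (v β : ι → Vec D), R ι J v β → ∀ Q : Prop, (F → Q) →
      (∀ (k d : ℕ) (_ : k + d = D) (v' β' : ι → Vec (k + d)), Sp k d → HEq v' v → HEq β' β →
        SplitB K k d (P k d) ι J v' β' → Q) → Q)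
    (hF : F → ∃ C : ℝ, 0 < C ∧ Bnd A L κ D (fun _ _ _ _ => True) e q C)
    (hS : ∀ k d : ℕ, Sp k d → k + d = D → ∃ C : ℝ, 0 < C ∧
      Bnd A L κ (k + d) (SplitB K k d (P k d)) e q C) :
    ∃ C : ℝ, 0 < C ∧ Bnd A L κ D R e q C := by
  classical
  have hF' : ∃ C : ℝ, 0 < C ∧ (F → Bnd A L κ D (fun _ _ _ _ => True) e q C) := by
    by_cases hh : F
    · obtain ⟨C, hC, hB⟩ := hF hh
      exact ⟨C, hC, fun _ => hB⟩
    · exact ⟨1, one_pos, fun a => absurd a hh⟩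
  have h' : ∀ k d : ℕ, ∃ C : ℝ, 0 < C ∧ (Sp k d → k + d = D → Bnd A L κ (k + d) (SplitB K k d (P k d)) e q C) := by
    intro k d
    by_cases hh : Sp k d ∧ k + d = D
    · obtain ⟨C, hC, hB⟩ := hS k d hh.1 hh.2
      exact ⟨C, hC, fun _ _ => hB⟩
    · exact ⟨1, one_pos, fun a b => absurd ⟨a, b⟩ hh⟩
  obtain ⟨C₁, hC₁, hB₁⟩ := hF'
  choose C hC hB using h'
  have hsum0 : 0 < ∑ k ∈ Finset.range (D + 1), ∑ d ∈ Finset.range (D + 1), C k d :=
    Finset.sum_pos (fun k _ => Finset.sum_pos (fun d _ => hC k d) ⟨0, by simp⟩) ⟨0, by simp⟩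
  refine ⟨C₁ + ∑ k ∈ Finset.range (D + 1), ∑ d ∈ Finset.range (D + 1), C k d, by linarith, ?_⟩
  intro B hB1 ι J v β hJ hv hRR hM
  apply hR ι J v β hRR
  · intro hf
    refine (hB₁ hf B hB1 ι J v β hJ hv trivial hM).trans (ENNReal.ofReal_le_ofReal ?_)
    apply mul_le_mul_of_nonneg_right _ (by positivity)
    linarith
  · intro k d hkd v' β' hsp hv' hβ' hS'
    subst hkd
    have hv'' := eq_of_heq hv'
    have hβ'' := eq_of_heq hβ'
    subst hv''
    subst hβ''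
    refine (hB k d hsp rfl B hB1 ι J v' β' hJ hv hS' hM).trans (ENNReal.ofReal_le_ofReal ?_)
    apply mul_le_mul_of_nonneg_right _ (by positivity)
    have h3 : C k d ≤ ∑ d' ∈ Finset.range (k + d + 1), C k d' :=
      Finset.single_le_sum (f := fun d' => C k d') (fun d' _ => (hC k d').le) (Finset.mem_range.2 (by omega))
    have h4 : ∑ d' ∈ Finset.range (k + d + 1), C k d' ≤
        ∑ k' ∈ Finset.range (k + d + 1), ∑ d' ∈ Finset.range (k + d + 1), C k' d' :=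
      Finset.single_le_sum (f := fun k' => ∑ d' ∈ Finset.range (k + d + 1), C k' d')
        (fun k' _ => Finset.sum_nonneg fun d' _ => (hC k' d').le) (Finset.mem_range.2 (by omega))
    linarith

/-- The exponents of the blocks are admissible. -/
def Adm (m : ℕ) (w : ℕ → ℝ) : Prop := ∀ k, 1 ≤ k → k ≤ m → 1 ≤ w k ∧ BaseD k (w k)

/-- **The bound without a loss.** -/
theorem fam_bnd {K A L : ℝ} (hK : 0 ≤ K) (hA : 0 < A) (hL : 0 ≤ L) (κ : ℕ) {m : ℕ} {w : ℕ → ℝ}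
    (hw : Adm m w) {W : ℝ} (hW1 : 1 ≤ W) (hW : ∀ k, 1 ≤ k → k ≤ m → w k ≤ W) (D : ℕ) :
    ∀ q : ℝ, 1 + W / (D : ℝ) < q →
    ∃ C : ℝ, 0 < C ∧ Bnd A L κ D (fun _ J v β => ∃ l, RedB K m w l D J v β) 0 q C := by
  have hbase : ∀ k, 1 ≤ k → k ≤ m → ∀ (A' : ℝ) (κ' : ℕ) (q : ℝ), 1 + W / (k : ℝ) < q →
      ∃ C : ℝ, 0 < C ∧ Bnd A' L κ' k (fun _ _ _ _ => True) 0 q C := by
    intro k hk hkm A' κ' q hq
    have hk0 : (0 : ℝ) < k := by exact_mod_cast hk
    have h2 : w k / (k : ℝ) ≤ W / (k : ℝ) := div_le_div_of_nonneg_right (hW k hk hkm) hk0.le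
    exact BaseD.bnd (hw k hk hkm).2 A' L κ' (by linarith)
  induction D using Nat.strong_induction_on with
  | _ D ih =>
    intro q hq
    refine bnd_glue (K := K) (F := 1 ≤ D ∧ D ≤ m) (Sp := fun k d => 1 ≤ k ∧ k ≤ m ∧ 1 ≤ d)
      (P := fun k d _ J v β => ∃ l, RedB K m w l d J v β) ?_ ?_ ?_
    · intro ι J v β hR Q hF hS
      obtain ⟨l, hR⟩ := hR
      refine hR.inv Q (fun h1 h2 _ => hF ⟨h1, h2⟩) ?_
      intro k d hkd v' β' hk hkm hv' hβ' hSp
      obtain ⟨U, h1, h2⟩ := hSp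
      exact hS k d hkd v' β' ⟨hk, hkm, ((h2 (fun _ => 0)).pos (fun k hk hkm => (hw k hk hkm).1)).1⟩ hv' hβ'
        ⟨U, h1, fun z => ⟨_, h2 z⟩⟩
    · intro hf
      exact hbase D hf.1 hf.2 A κ q hq
    · intro k d hsp hkd
      obtain ⟨hk, hkm, hd1⟩ := hsp
      have hk0 : (0 : ℝ) < k := by exact_mod_cast hk
      have hd0 : (0 : ℝ) < d := by exact_mod_cast hd1
      have e1 : (D : ℝ) = (k : ℝ) + d := by rw [← hkd]; push_cast; ring
      rw [e1] at hq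
      refine stepB hK hA hL κ k d hk hd1 hW1 (ea := 0) (eb := 0) (e := 0)
        le_rfl le_rfl one_pos ?_ _ ?_ ?_ hq
      · intro z _ _
        simp
      · intro p hp
        exact hbase k hk hkm _ _ p hp
      · intro p hp
        exact ih d (by omega) p hp

/-- **The bound with a loss.** -/
theorem fam_loss {K A L : ℝ} (hK : 0 ≤ K) (hA : 0 < A) (hL : 0 ≤ L) (κ : ℕ) {m : ℕ} {w : ℕ → ℝ}
    (hw : Adm m w) (D : ℕ) :
    ∀ l q : ℝ, 1 + 1 / (D : ℝ) < q → ∀ μ : ℝ, l < μ →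
    ∃ C : ℝ, 0 < C ∧ Bnd A L κ D (fun _ J v β => RedB K m w l D J v β) μ q C := by
  have hbase : ∀ k, 1 ≤ k → k ≤ m → ∀ (A' : ℝ) (κ' : ℕ) (q : ℝ), 1 + 1 / (k : ℝ) < q → ∀ μ : ℝ,
      bloss w k < μ → ∃ C : ℝ, 0 < C ∧ Bnd A' L κ' k (fun _ _ _ _ => True) μ q C := by
    intro k hk hkm A' κ' q hq μ hμ
    exact BaseD.bnd_loss hk (hw k hk hkm).1 (hw k hk hkm).2 A' hL κ' hq hμ
  have hb : ∀ k, 1 ≤ k → k ≤ m → 0 ≤ bloss w k := by
    intro k hk hkm
    have := (hw k hk hkm).1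
    unfold bloss
    exact mul_nonneg (Nat.cast_nonneg _) (div_nonneg (by linarith) (by linarith))
  induction D using Nat.strong_induction_on with
  | _ D ih =>
    intro l q hq μ hμ
    refine bnd_glue (K := K) (F := 1 ≤ D ∧ D ≤ m ∧ bloss w D ≤ l)
      (Sp := fun k d => 1 ≤ k ∧ k ≤ m ∧ 1 ≤ d ∧ 0 ≤ l - bloss w k)
      (P := fun k d _ J v β => RedB K m w (l - bloss w k) d J v β) ?_ ?_ ?_
    · intro ι J v β hR Q hF hS
      refine hR.inv Q (fun h1 h2 h3 => hF ⟨h1, h2, h3⟩) ?_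
      intro k d hkd v' β' hk hkm hv' hβ' hSp
      obtain ⟨U, h1, h2⟩ := hSp
      have h3 := (h2 (fun _ => 0)).pos (fun k hk hkm => (hw k hk hkm).1)
      exact hS k d hkd v' β' ⟨hk, hkm, h3.1, h3.2⟩ hv' hβ' ⟨U, h1, h2⟩
    · intro hf
      exact hbase D hf.1 hf.2.1 A κ q hq μ (lt_of_le_of_lt hf.2.2 hμ)
    · intro k d hsp hkd
      obtain ⟨hk, hkm, hd1, hlk⟩ := hsp
      have hk0 : (0 : ℝ) < k := by exact_mod_cast hk
      have hd0 : (0 : ℝ) < d := by exact_mod_cast hd1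
      have e1 : (D : ℝ) = (k : ℝ) + d := by rw [← hkd]; push_cast; ring
      rw [e1] at hq
      obtain ⟨η, hη⟩ : ∃ η : ℝ, η = (μ - l) / 3 := ⟨_, rfl⟩
      have hη0 : 0 < η := by rw [hη]; linarith
      obtain ⟨ea, hea⟩ : ∃ ea : ℝ, ea = bloss w k + η := ⟨_, rfl⟩
      obtain ⟨eb, heb⟩ : ∃ eb : ℝ, eb = l - bloss w k + η := ⟨_, rfl⟩
      have hea0 : 0 < ea := by rw [hea]; linarith [hb k hk hkm]
      have heb0 : 0 < eb := by rw [heb]; linarith
      have hden : 0 < ((k : ℝ) + d) * (ea / k + eb / d) := by positivity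
      refine stepB hK hA hL κ k d hk hd1 (w := 1) le_rfl (ea := ea) (eb := eb) (e := μ) hea0.le heb0.le
        (z₀ := η / (((k : ℝ) + d) * (ea / k + eb / d))) (by positivity) ?_ _ ?_ ?_ hq
      · intro z hz hz0
        rw [le_div_iff₀ hden] at hz0
        have hkd0 : (0 : ℝ) < (k : ℝ) + d := by linarith
        rw [le_div_iff₀ hkd0]
        have e3 : (ea / k * (k / ((k : ℝ) + d) + z) + eb / d * (d / ((k : ℝ) + d) + z)) * ((k : ℝ) + d) =
            ea + eb + z * (((k : ℝ) + d) * (ea / k + eb / d)) := by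
          field_simp
          ring
        rw [e3]
        have e4 : μ = ea + eb + η := by rw [hea, heb, hη]; ring
        linarith
      · intro p hp
        exact hbase k hk hkm _ _ p hp _ (by rw [hea]; linarith)
      · intro p hp
        exact ih d (by omega) (l - bloss w k) p hp _ (by rw [heb]; linarith)

open Pool.Agent.Y254.EL (EuF EuL)

/-- The exponents of the hybrid bound. -/
theorem BaseD.hybrid {k : ℕ} (hk : 9 ≤ k) {x c : ℝ} (h : Pool.Agent.Y254HK.Cd k x c) : BaseD k c := by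
  have hk1 : (9 : ℝ) ≤ k := by exact_mod_cast hk
  rcases lt_or_ge c k with hck | hck
  · apply BaseD.of_euF (by omega) h.c1.le hck
    intro q hq
    exact Pool.Agent.Y254HK.tubes_mix hk h hq.le
  · apply BaseD.mono (by omega) _ (BaseD.wolff' (by omega : 1 ≤ k))
    rw [div_le_iff₀ (by positivity)]
    nlinarith

/-- The exponents from a tube inequality with a small loss. -/
theorem BaseD.hyp {k : ℕ} (hk : 2 ≤ k) {w : ℝ} (hw : 1 ≤ w)
    (h : ∀ ε : ℝ, 0 < ε → ∃ C : ℝ, 0 ≤ C ∧ EuL k (1 + w / (k : ℝ)) ε C) : BaseD k w := by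
  have hk1 : (2 : ℝ) ≤ k := by exact_mod_cast hk
  rcases lt_or_ge w k with hwk | hwk
  · exact BaseD.of_euL (by omega) hw hwk h
  · apply BaseD.mono (by omega) _ (BaseD.wolff' (by omega : 1 ≤ k))
    rw [div_le_iff₀ (by positivity)]
    nlinarith

end Pool.Agent.U527.Rs
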