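import Pool.Agent.U527.Rs.Blk
import Pool.Agent.U527.Rs.Multi

set_option autoImplicit false

/-! The step: a block of coordinates is split off. -/

open MeasureTheory Set ENNReal NNReal

namespace Pool.Agent.U527.Rs

open Pool.Agent.R134.Kak

/-- The first block of the positions depends only on the first block of the slopes, and the fibres have
the property `P`. -/
def SplitB (K : ℝ) (k d : ℕ) (P : (ι : Type) → Finset ι → (ι → Vec d) → (ι → Vec d) → Prop)
    (ι : Type) (J : Finset ι) (v β : ι → Vec (k + d)) : Prop :=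
  ∃ U : Vec (k + d) ≃ₗᵢ[ℝ] Vec (k + d),
    (∀ i ∈ J, ∀ i' ∈ J, (∀ j, |fst k d (U (v i)) j - fst k d (U (v i')) j| ≤ 1) →
      ∀ j, |fst k d (U (β i)) j - fst k d (U (β i')) j| ≤ K) ∧
    ∀ z : Fin k → ℤ, P ι (J.filter (fun i => cellv (fst k d (U (v i))) = z))
      (fun i => snd k d (U (v i))) (fun i => snd k d (U (β i)))

theorem stepB {K A L : ℝ} (hK : 0 ≤ K) (hA : 0 < A) (hL : 0 ≤ L) (κ k d : ℕ) (hk : 1 ≤ k) (hd : 1 ≤ d)
    {w : ℝ} (hw : 1 ≤ w) {ea eb e : ℝ} (hea : 0 ≤ ea) (heb : 0 ≤ eb) {z₀ : ℝ} (hz₀ : 0 < z₀)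
    (hez : ∀ z : ℝ, 0 < z → z ≤ z₀ → ea / k * (k / ((k : ℝ) + d) + z) + eb / d * (d / ((k : ℝ) + d) + z) ≤
      e / ((k : ℝ) + d))
    (P : (ι : Type) → Finset ι → (ι → Vec d) → (ι → Vec d) → Prop)
    (HA : ∀ p : ℝ, 1 + w / (k : ℝ) < p → ∃ C : ℝ, 0 < C ∧
      Bnd (A + k * (K + L)) L ((2 * (k + 2)) ^ k) k (fun _ _ _ _ => True) ea p C)
    (HB : ∀ p : ℝ, 1 + w / (d : ℝ) < p → ∃ C : ℝ, 0 < C ∧ Bnd A L κ d P eb p C)
    {q : ℝ} (hq : 1 + w / ((k : ℝ) + d) < q) :
    ∃ C : ℝ, 0 < C ∧ Bnd A L κ (k + d) (SplitB K k d P) e q C := by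
  classical
  unfold Bnd at HA HB ⊢
  have ecast : ((k + d : ℕ) : ℝ) = (k : ℝ) + d := by push_cast; ring
  simp only [ecast]
  obtain ⟨a, ha⟩ : ∃ a : ℝ, a = (k : ℝ) := ⟨_, rfl⟩
  obtain ⟨b, hb⟩ : ∃ b : ℝ, b = (d : ℝ) := ⟨_, rfl⟩
  rw [← ha, ← hb] at hez hq ⊢
  rw [← hb] at HB
  have ha1 : 1 ≤ a := by rw [ha]; exact_mod_cast hk
  have hb1 : 1 ≤ b := by rw [hb]; exact_mod_cast hd
  have ha0 : 0 < a := by linarith
  have hb0 : 0 < b := by linarith
  have hw0 : 0 < w := by linarith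
  have hA1 : 0 < A + a * (K + L) := by positivity
  have hab0 : 0 < a + b := by linarith
  obtain ⟨e', he'⟩ : ∃ e' : ℝ, e' = q - 1 - w / (a + b) := ⟨_, rfl⟩
  have he0 : 0 < e' := by rw [he']; linarith
  have hinv : 0 < 1 / (a + b) := by positivity
  have hwinv : 1 / (a + b) ≤ w / (a + b) := div_le_div_of_nonneg_right hw hab0.le
  have hq1 : 1 ≤ q := by linarith
  have hq0 : 0 < q := by linarith
  have hla : 0 < a / (a + b) := by positivity
  have hlb : 0 < b / (a + b) := by positivity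
  have hlab : a / (a + b) + b / (a + b) = 1 := by field_simp
  obtain ⟨z, hz0, hza, hzb, hzw, hzz⟩ : ∃ z : ℝ, 0 < z ∧ z < a / (a + b) ∧ z < b / (a + b) ∧ w * z ≤ e' / 2 ∧
      z ≤ z₀ := by
    refine ⟨min (min (a / (a + b) / 2) (b / (a + b) / 2)) (min (e' / (2 * w)) z₀), ?_, ?_, ?_, ?_, ?_⟩
    · exact lt_min (lt_min (by positivity) (by positivity)) (lt_min (by positivity) hz₀)
    · exact lt_of_le_of_lt ((min_le_left _ _).trans (min_le_left _ _)) (by linarith)
    · exact lt_of_le_of_lt ((min_le_left _ _).trans (min_le_right _ _)) (by linarith)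
    · have h1 : min (min (a / (a + b) / 2) (b / (a + b) / 2)) (min (e' / (2 * w)) z₀) ≤ e' / (2 * w) :=
        (min_le_right _ _).trans (min_le_left _ _)
      calc w * min (min (a / (a + b) / 2) (b / (a + b) / 2)) (min (e' / (2 * w)) z₀) ≤ w * (e' / (2 * w)) :=
            mul_le_mul_of_nonneg_left h1 hw0.le
        _ = e' / 2 := by field_simp
    · exact (min_le_right _ _).trans (min_le_right _ _)
  have hl : ∀ l, (l = b / (a + b) + z ∨ l = b / (a + b) + (-z)) → 0 < l ∧ l < 1 ∧ w / a < (q - 1) / (1 - l) ∧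
      w / b < (q - 1) / l := by
    intro l hl
    have h1 : b / (a + b) - z ≤ l ∧ l ≤ b / (a + b) + z := by
      rcases hl with rfl | rfl <;> constructor <;> linarith
    have h0 : 0 < l := by linarith
    have h2 : l < 1 := by linarith
    refine ⟨h0, h2, ?_, ?_⟩
    · rw [div_lt_div_iff₀ ha0 (by linarith)]
      have h4 : (q - 1) * a = w * (a / (a + b)) + e' * a := by rw [he']; ring
      have h5 : e' * 1 ≤ e' * a := mul_le_mul_of_nonneg_left ha1 he0.le
      have h6 : w * (1 - l) ≤ w * (a / (a + b) + z) := mul_le_mul_of_nonneg_left (by linarith) hw0.le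
      rw [mul_add] at h6
      linarith
    · rw [div_lt_div_iff₀ hb0 h0]
      have h4 : (q - 1) * b = w * (b / (a + b)) + e' * b := by rw [he']; ring
      have h5 : e' * 1 ≤ e' * b := mul_le_mul_of_nonneg_left hb1 he0.le
      have h6 : w * l ≤ w * (b / (a + b) + z) := mul_le_mul_of_nonneg_left h1.2 hw0.le
      rw [mul_add] at h6
      linarith
  -- the constants
  obtain ⟨-, -, hr1, hs1⟩ := hl (b / (a + b) + z) (Or.inl rfl)
  obtain ⟨-, -, hr2, hs2⟩ := hl (b / (a + b) + (-z)) (Or.inr rfl)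
  rw [← ha] at HA
  obtain ⟨C1, hC1, hP1⟩ := HA (1 + (q - 1) / (1 - (b / (a + b) + z))) (by linarith)
  obtain ⟨C2, hC2, hP2⟩ := HA (1 + (q - 1) / (1 - (b / (a + b) + (-z)))) (by linarith)
  obtain ⟨C3, hC3, hI3⟩ := HB (1 + (q - 1) / (b / (a + b) + z)) (by linarith)
  obtain ⟨C4, hC4, hI4⟩ := HB (1 + (q - 1) / (b / (a + b) + (-z))) (by linarith)
  set V : ℝ := (volume (Metric.closedBall (0 : Vec d) A)).toReal with hV
  have hV0 : 0 ≤ V := ENNReal.toReal_nonneg
  have hVt : volume (Metric.closedBall (0 : Vec d) A) ≠ ∞ := measure_closedBall_lt_top.ne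
  set V' : ℝ := (volume (Metric.closedBall (0 : Vec k) (A + a * (K + L)))).toReal with hV'
  have hV'0 : 0 ≤ V' := ENNReal.toReal_nonneg
  have hVt' : volume (Metric.closedBall (0 : Vec k) (A + a * (K + L))) ≠ ∞ := measure_closedBall_lt_top.ne
  set Cm : ℝ := C1 + C2 + C3 + C4 + V' + V with hCm
  have hCm0 : 0 < Cm := by positivity
  have hρ1 : (2 : ℝ) ^ (-((1 / a + 1 / b) * z / q)) < 1 := by
    apply Real.rpow_lt_one_of_one_lt_of_neg (by norm_num)
    have : 0 < (1 / a + 1 / b) * z / q := by positivity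
    linarith
  have hρ2 : 0 < 1 - (2 : ℝ) ^ (-((1 / a + 1 / b) * z / q)) := by linarith
  have hk1 : 0 < a + 1 := by linarith
  refine ⟨Cm ^ (2 : ℝ) * ((a + 1) ^ (ea / a)) ^ (a / (a + b) + z) *
    (2 ^ q * (4 / (1 - 2 ^ (-((1 / a + 1 / b) * z / q)))) ^ q), by positivity, ?_⟩
  intro B hB ι J v β hJ hv hR hM
  obtain ⟨U, hU, hR'⟩ := hR
  have hB0 : 0 < B := by linarith
  have hBa : 0 < ((a + 1) * B) ^ (ea / a) := Real.rpow_pos_of_pos (by positivity) _
  have hBb : 0 < B ^ (eb / b) := Real.rpow_pos_of_pos hB0 _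
  have hB' : 1 ≤ (a + 1) * B := by nlinarith
  set cl : ι → Fin k → ℤ := fun i => cellv (fst k d (U (v i))) with hcl
  set g : (Fin k → ℤ) → Vec k := pickv J cl (fun i => fst k d (U (β i))) with hg
  set v' : ι → Vec d := fun i => snd k d (U (v i)) with hv'
  set β' : ι → Vec d := fun i => snd k d (U (β i)) with hβ'
  have hvB : ∀ z : Fin k → ℤ, ∀ i ∈ J.filter (fun i => cl i = z), ‖v' i‖ ≤ B := by
    intro z i hi
    refine (norm_snd_le _).trans ?_
    rw [U.norm_map]
    exact hv i (Finset.mem_filter.1 hi).1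
  have hcB : ∀ S : Finset (Fin k → ℤ), S ⊆ J.image cl → ∀ z ∈ S, ‖corner z‖ ≤ (a + 1) * B := by
    intro S hS z hz
    obtain ⟨i, hi, rfl⟩ := Finset.mem_image.1 (hS hz)
    have h1 : ‖fst k d (U (v i))‖ ≤ B := by
      refine (norm_fst_le _).trans ?_
      rw [U.norm_map]
      exact hv i hi
    have h2 : ‖corner (cl i) - fst k d (U (v i))‖ ≤ k * 1 := by
      apply norm_le_mul zero_le_one
      intro j
      have := corner_near (fst k d (U (v i))) j
      rw [abs_sub_comm] at this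
      exact this
    have h3 : ‖corner (cl i)‖ ≤ ‖corner (cl i) - fst k d (U (v i))‖ + ‖fst k d (U (v i))‖ := by
      have := norm_add_le (corner (cl i) - fst k d (U (v i))) (fst k d (U (v i)))
      rwa [sub_add_cancel] at this
    rw [← ha] at h2
    nlinarith
  have hmulti := skew_multiL (τ := volume.restrict (Icc (-L) L)) (μ := (volume : Measure (Vec k)))
    (ν := (volume : Measure (Vec d))) (a := a) (b := b) (q := q) (z := z) ha0 hb0 hq1 hz0
    hza hzb (by
      have h1 : 1 ≤ q - 1 / (a + b) := by linarith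
      have h2 : 1 * 1 ≤ a * (q - 1 / (a + b)) := mul_le_mul ha1 h1 zero_le_one ha0.le
      linarith)
    (fun l hl' => by
      have h1 := (hl l hl').2.2.2
      have h2 : 1 / b ≤ w / b := div_le_div_of_nonneg_right hw hb0.le
      linarith)
    (ENNReal.ofReal Cm) (ENNReal.ofReal (((a + 1) * B) ^ (ea / a))) (ENNReal.ofReal (B ^ (eb / b)))
    (by
      rw [← ENNReal.ofReal_one]
      exact ENNReal.ofReal_le_ofReal (Real.one_le_rpow hB' (by positivity)))
    (by
      rw [← ENNReal.ofReal_one]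
      exact ENNReal.ofReal_le_ofReal (Real.one_le_rpow hB (by positivity))) J cl
    (tub (A + a * (K + L)) corner g) (tub A v' β')
    (tub_meas (A + a * (K + L)) corner g) (tub_meas A v' β')
    (fun m t => by
      rw [tub_int, ← ENNReal.ofReal_toReal hVt']
      apply ENNReal.ofReal_le_ofReal
      rw [hCm]
      linarith)
    (fun i t => by
      rw [tub_int, ← ENNReal.ofReal_toReal hVt]
      apply ENNReal.ofReal_le_ofReal
      rw [hCm]
      linarith)
    (fun l hl' S hS hSJ => by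
      have hS0 : (0 : ℝ) < S.card := by exact_mod_cast hS.card_pos
      rw [← ENNReal.ofReal_mul hCm0.le, ← ENNReal.ofReal_mul (by positivity)]
      rcases hl' with rfl | rfl
      · refine (hP1 _ hB' _ S corner g hS (hcB S hSJ) trivial (corner_mult S)).trans (ENNReal.ofReal_le_ofReal ?_)
        rw [mul_comm (((a + 1) * B) ^ (ea / a)), ← mul_assoc]
        apply mul_le_mul_of_nonneg_right _ hBa.le
        apply mul_le_mul_of_nonneg_right _ (by positivity)
        rw [hCm]; linarith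
      · refine (hP2 _ hB' _ S corner g hS (hcB S hSJ) trivial (corner_mult S)).trans (ENNReal.ofReal_le_ofReal ?_)
        rw [mul_comm (((a + 1) * B) ^ (ea / a)), ← mul_assoc]
        apply mul_le_mul_of_nonneg_right _ hBa.le
        apply mul_le_mul_of_nonneg_right _ (by positivity)
        rw [hCm]; linarith)
    (fun l hl' m hm => by
      have hS0 : (0 : ℝ) < (J.filter (fun i => cl i = m)).card := by exact_mod_cast hm.card_pos
      rw [← ENNReal.ofReal_mul hCm0.le, ← ENNReal.ofReal_mul (by positivity)]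
      rcases hl' with rfl | rfl
      · refine (hI3 B hB ι _ v' β' hm (hvB m) (hR' m) (class_snd hM U m)).trans (ENNReal.ofReal_le_ofReal ?_)
        rw [mul_comm (B ^ (eb / b)), ← mul_assoc]
        apply mul_le_mul_of_nonneg_right _ hBb.le
        apply mul_le_mul_of_nonneg_right _ (by positivity)
        rw [hCm]; linarith
      · refine (hI4 B hB ι _ v' β' hm (hvB m) (hR' m) (class_snd hM U m)).trans (ENNReal.ofReal_le_ofReal ?_)
        rw [mul_comm (B ^ (eb / b)), ← mul_assoc]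
        apply mul_le_mul_of_nonneg_right _ hBb.le
        apply mul_le_mul_of_nonneg_right _ (by positivity)
        rw [hCm]; linarith)
    hJ
  have hpt : ∀ t ∈ Icc (-L) L, ∫⁻ x, (∑ i ∈ J, tub A v β i (t, x)) ^ q ≤
      ∫⁻ x : Vec k, ∫⁻ y, (∑ i ∈ J, tub (A + a * (K + L)) corner g (cl i) (t, x) * tub A v' β' i (t, y)) ^ q := by
    intro t ht
    have ht' : |t| ≤ L := abs_le.2 ht
    have hmeas : Measurable (fun p : Vec k × Vec d =>
        (∑ i ∈ J, tub (A + a * (K + L)) corner g (cl i) (t, p.1) * tub A v' β' i (t, p.2)) ^ q) := by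
      refine (Finset.measurable_fun_sum _ fun i _ => ?_).pow_const q
      exact ((tub_meas _ corner g (cl i)).comp (measurable_const.prodMk measurable_fst)).mul
        ((tub_meas A v' β' i).comp (measurable_const.prodMk measurable_snd))
    rw [← lint_rot_fs U (fun x y => (∑ i ∈ J, tub (A + a * (K + L)) corner g (cl i) (t, x) *
      tub A v' β' i (t, y)) ^ q) hmeas]
    refine lintegral_mono fun x => ENNReal.rpow_le_rpow ?_ hq0.le
    refine Finset.sum_le_sum fun i hi => ?_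
    have h1 := tub_le_fs (A := A) hK hL U hU hi ht' x
    rw [← ha] at h1
    exact h1
  refine (setLIntegral_mono' measurableSet_Icc hpt).trans (hmulti.trans ?_)
  have hJ0 : (0 : ℝ) < J.card := by exact_mod_cast hJ.card_pos
  rw [ENNReal.ofReal_rpow_of_pos hCm0, ENNReal.ofReal_rpow_of_pos hBa, ENNReal.ofReal_rpow_of_pos hBb,
    ← ENNReal.ofReal_mul (by positivity), ← ENNReal.ofReal_mul (by positivity),
    ← ENNReal.ofReal_mul (by positivity)]
  apply ENNReal.ofReal_le_ofReal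
  have h7 : (B ^ (ea / a)) ^ (a / (a + b) + z) * (B ^ (eb / b)) ^ (b / (a + b) + z) ≤ B ^ (e / (a + b)) := by
    rw [← Real.rpow_mul hB0.le, ← Real.rpow_mul hB0.le, ← Real.rpow_add hB0]
    exact Real.rpow_le_rpow_of_exponent_le hB (hez z hz0 hzz)
  have h8 : (((a + 1) * B) ^ (ea / a)) ^ (a / (a + b) + z) =
      ((a + 1) ^ (ea / a)) ^ (a / (a + b) + z) * (B ^ (ea / a)) ^ (a / (a + b) + z) := by
    rw [Real.mul_rpow hk1.le hB0.le, Real.mul_rpow (by positivity) (by positivity)]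
  rw [h8]
  calc Cm ^ (2 : ℝ) * (((a + 1) ^ (ea / a)) ^ (a / (a + b) + z) * (B ^ (ea / a)) ^ (a / (a + b) + z) *
        (B ^ (eb / b)) ^ (b / (a + b) + z)) *
        (2 ^ q * (4 / (1 - 2 ^ (-((1 / a + 1 / b) * z / q)))) ^ q * (J.card : ℝ) ^ (q - 1 / (a + b)))
      = (Cm ^ (2 : ℝ) * ((a + 1) ^ (ea / a)) ^ (a / (a + b) + z) *
          (2 ^ q * (4 / (1 - 2 ^ (-((1 / a + 1 / b) * z / q)))) ^ q)) *
          (((B ^ (ea / a)) ^ (a / (a + b) + z) * (B ^ (eb / b)) ^ (b / (a + b) + z)) *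
          (J.card : ℝ) ^ (q - 1 / (a + b))) := by ring
    _ ≤ _ := by
        apply mul_le_mul_of_nonneg_left _ (by positivity)
        apply mul_le_mul_of_nonneg_right h7 (by positivity)

end Pool.Agent.U527.Rs
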