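import Pool.Agent.U527.Rs.Box

set_option autoImplicit false

/-! The volume of the union of the boxes. -/

open MeasureTheory Set ENNReal NNReal Metric

namespace Pool.Agent.U527.Rs

open Pool.Agent.R134.Kak
open Pool.Agent.H810R3.Tub (Space box nor Fb Fb_measurable box_coord Fb_int vol_box box_closed)

variable {d : ℕ}

theorem holder_union {ι : Type} [Fintype ι] {N q Q : ℝ} (hN : 1 ≤ N) (hq : 1 < q)
    (ω : ι → Vec d) (f : ι → Fin d → Space d)
    (hf : ∀ i, Orthonormal ℝ (Fin.cons (nor (ω i)) (f i) : Fin (d + 1) → Space d)) (a : ι → Space d)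
    (hQi : ∫⁻ y, Fb N ω f a y ^ q ≤ ENNReal.ofReal Q) :
    ENNReal.ofReal ((Fintype.card ι : ℝ) * N ^ (d + 2)) ^ q ≤
      ENNReal.ofReal Q * volume (⋃ i, box N (nor (ω i)) (f i) (a i)) ^ (q - 1) := by
  classical
  have hq0 : 0 < q := by linarith
  have hq1 : 0 < q - 1 := by linarith
  set U : Set (Space d) := ⋃ i, box N (nor (ω i)) (f i) (a i) with hU
  have hUm : MeasurableSet U := MeasurableSet.iUnion fun i => (box_closed _ _ _ _).measurableSet
  set g : Space d → ℝ≥0∞ := U.indicator (fun _ => 1) with hg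
  have hgm : Measurable g := measurable_const.indicator hUm
  have hFm := Fb_measurable N ω f a
  have hFg : ∀ y, Fb N ω f a y = Fb N ω f a y * g y := by
    intro y
    by_cases hy : y ∈ U
    · rw [hg, indicator_of_mem hy, mul_one]
    · have h0 : Fb N ω f a y = 0 := by
        unfold Fb
        refine Finset.sum_eq_zero fun i _ => indicator_of_notMem (fun hm => hy ?_) _
        exact mem_iUnion.2 ⟨i, hm⟩
      rw [h0, zero_mul]
  have hpq : q.HolderConjugate (q / (q - 1)) := by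
    rw [Real.holderConjugate_iff]
    refine ⟨hq, ?_⟩
    field_simp
    ring
  have h1 := ENNReal.lintegral_mul_le_Lp_mul_Lq volume hpq hFm.aemeasurable hgm.aemeasurable
  have h2 : ∫⁻ y, Fb N ω f a y = ∫⁻ y, (Fb N ω f a * g) y := lintegral_congr fun y => hFg y
  rw [← h2, Fb_int hN hf a] at h1
  have h3 : ∫⁻ y, g y ^ (q / (q - 1)) = volume U := by
    have : ∀ y, g y ^ (q / (q - 1)) = g y := by
      intro y
      by_cases hy : y ∈ U
      · rw [hg, indicator_of_mem hy, ENNReal.one_rpow]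
      · rw [hg, indicator_of_notMem hy, ENNReal.zero_rpow_of_pos (by positivity)]
    simp only [this]
    rw [hg, lintegral_indicator_const hUm, one_mul]
  rw [h3] at h1
  have h4 := ENNReal.rpow_le_rpow h1 hq0.le
  rw [ENNReal.mul_rpow_of_nonneg _ _ hq0.le, ← ENNReal.rpow_mul, ← ENNReal.rpow_mul,
    one_div_mul_cancel hq0.ne', ENNReal.rpow_one] at h4
  have e1 : 1 / (q / (q - 1)) * q = q - 1 := by field_simp
  rw [e1] at h4
  exact h4.trans (mul_le_mul' hQi le_rfl)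

/-- The number of separated centres. -/
theorem card_centres {σ N : ℝ} (hσ : 0 < σ) (hσ1 : σ ≤ 1) (hN : 1 ≤ N) {ι : Type} [Fintype ι]
    (ω : ι → Vec d) (hω : ∀ i, ‖ω i‖ ≤ 1) (hsep : ∀ i j, i ≠ j → σ / N ≤ ‖ω i - ω j‖) :
    (Fintype.card ι : ℝ) ≤ ((2 * (d + 2)) ^ d * (6 / σ) ^ d) * N ^ d := by
  have hN0 : 0 < N := by linarith
  have hB1 : 1 ≤ N / σ := by
    rw [le_div_iff₀ hσ]
    linarith
  have h1 := card_le_of_mult (J := Finset.univ) (mult_scaled hσ hN0 ω hsep) hB1 (by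
    intro i _
    rw [norm_smul, Real.norm_eq_abs, abs_of_pos (by positivity)]
    exact mul_le_of_le_one_right (by positivity) (hω i))
  rw [Finset.card_univ] at h1
  refine h1.trans (le_of_eq ?_)
  push_cast
  rw [mul_pow, mul_pow, div_pow, div_pow]
  ring

/-- **The volume of the union.** -/
theorem union_bound (hd : 1 ≤ d) {E C₁ lam ε : ℝ} (hE : 0 < E) (hC₁ : 0 < C₁) (hlam : 0 ≤ lam)
    (hε : 0 < ε) : ∃ c₀ : ℝ, 0 < c₀ ∧ ∀ N : ℝ, 1 ≤ N → ∀ (ι : Type) [Fintype ι] [Nonempty ι] (ω : ι → Vec d)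
      (f : ι → Fin d → Space d) (a : ι → Space d),
      (∀ i, Orthonormal ℝ (Fin.cons (nor (ω i)) (f i) : Fin (d + 1) → Space d)) →
      (Fintype.card ι : ℝ) ≤ C₁ * N ^ d →
      ∫⁻ y, Fb N ω f a y ^ (1 + 1 / (d : ℝ) + ε / (2 * d ^ 2)) ≤ ENNReal.ofReal (E * N ^ ((lam + ε / 2) / d) *
        N ^ (d + 2) * (Fintype.card ι : ℝ) ^ ((1 + 1 / (d : ℝ) + ε / (2 * d ^ 2)) - 1 / (d : ℝ))) →
      ENNReal.ofReal (c₀ * N ^ (-lam - ε)) * ∑ i, volume (box N (nor (ω i)) (f i) (a i)) ≤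
        volume (⋃ i, box N (nor (ω i)) (f i) (a i)) := by
  have hd0 : (0 : ℝ) < d := by exact_mod_cast hd
  obtain ⟨θ, hθ⟩ : ∃ θ : ℝ, θ = ε / (2 * d ^ 2) := ⟨_, rfl⟩
  have hθ0 : 0 < θ := by rw [hθ]; positivity
  have hdi : 0 < 1 / (d : ℝ) := by positivity
  rw [← hθ]
  obtain ⟨q, hq⟩ : ∃ q : ℝ, q = 1 + 1 / (d : ℝ) + θ := ⟨_, rfl⟩
  rw [← hq]
  have hq1 : 1 < q := by rw [hq]; linarith
  have hq10 : 0 < q - 1 := by linarith
  have hX : 0 < E * C₁ ^ θ := by positivity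
  refine ⟨(1 / (2 * (E * C₁ ^ θ))) ^ (1 / (q - 1)), by positivity, ?_⟩
  set c₀ : ℝ := (1 / (2 * (E * C₁ ^ θ))) ^ (1 / (q - 1)) with hc₀
  have hc₀0 : 0 < c₀ := by positivity
  have hc₀q : c₀ ^ (q - 1) = 1 / (2 * (E * C₁ ^ θ)) := by
    rw [hc₀, ← Real.rpow_mul (by positivity), one_div_mul_cancel hq10.ne', Real.rpow_one]
  intro N hN ι _ _ ω f a hf hcard hQi
  have hN0 : 0 < N := by linarith
  have hc0 : (0 : ℝ) < (Fintype.card ι : ℝ) := by
    have := Fintype.card_pos (α := ι)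
    exact_mod_cast this
  set c : ℝ := (Fintype.card ι : ℝ) with hc
  have hsum : ∑ i, volume (box N (nor (ω i)) (f i) (a i)) = ENNReal.ofReal (c * N ^ (d + 2)) := by
    rw [Finset.sum_congr rfl (fun i _ => vol_box hN (hf i) (a i)), Finset.sum_const, Finset.card_univ,
      nsmul_eq_mul, ENNReal.ofReal_mul (Nat.cast_nonneg _), ENNReal.ofReal_natCast]
  rw [hsum]
  by_contra hcon
  push Not at hcon
  have h1 := holder_union hN hq1 ω f hf a hQi
  rw [← ENNReal.ofReal_mul (by positivity)] at hcon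
  set V : ℝ := c * N ^ (d + 2) with hV
  have hV0 : 0 < V := by positivity
  set t : ℝ := c₀ * N ^ (-lam - ε) with ht
  have ht0 : 0 < t := by positivity
  have h2 : ENNReal.ofReal V ^ q ≤ ENNReal.ofReal (E * N ^ ((lam + ε / 2) / d) * N ^ (d + 2) * c ^ (q - 1 / (d : ℝ))) *
      ENNReal.ofReal (t * V) ^ (q - 1) :=
    h1.trans (mul_le_mul' le_rfl (ENNReal.rpow_le_rpow hcon.le hq10.le))
  rw [ENNReal.ofReal_rpow_of_pos hV0, ENNReal.ofReal_rpow_of_pos (by positivity),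
    ← ENNReal.ofReal_mul (by positivity), ENNReal.ofReal_le_ofReal_iff (by positivity)] at h2
  have e1 : V ^ q = V * V ^ (q - 1) := by
    nth_rewrite 2 [← Real.rpow_one V]
    rw [← Real.rpow_add hV0]
    congr 1
    ring
  rw [e1, Real.mul_rpow ht0.le hV0.le, ← mul_assoc] at h2
  have h3 := le_of_mul_le_mul_right h2 (Real.rpow_pos_of_pos hV0 _)
  have e2 : t ^ (q - 1) = c₀ ^ (q - 1) * N ^ ((-lam - ε) * (q - 1)) := by
    rw [ht, Real.mul_rpow hc₀0.le (by positivity), ← Real.rpow_mul hN0.le]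
  have e3 : c ^ (q - 1 / (d : ℝ)) = c * c ^ θ := by
    nth_rewrite 2 [← Real.rpow_one c]
    rw [← Real.rpow_add hc0]
    congr 1
    rw [hq]
    ring
  have h4 : c ^ θ ≤ C₁ ^ θ * N ^ ((d : ℝ) * θ) := by
    calc c ^ θ ≤ (C₁ * N ^ d) ^ θ := Real.rpow_le_rpow hc0.le hcard hθ0.le
      _ = _ := by
          rw [Real.mul_rpow hC₁.le (by positivity), ← Real.rpow_natCast N d, ← Real.rpow_mul hN0.le]
  rw [e2, e3, hc₀q] at h3
  have h5 : V ≤ V * (E * C₁ ^ θ * (1 / (2 * (E * C₁ ^ θ))) *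
      N ^ ((lam + ε / 2) / d + (d : ℝ) * θ + (-lam - ε) * (q - 1))) := by
    refine h3.trans ?_
    calc E * N ^ ((lam + ε / 2) / d) * N ^ (d + 2) * (c * c ^ θ) *
          (1 / (2 * (E * C₁ ^ θ)) * N ^ ((-lam - ε) * (q - 1)))
        ≤ E * N ^ ((lam + ε / 2) / d) * N ^ (d + 2) * (c * (C₁ ^ θ * N ^ ((d : ℝ) * θ))) *
          (1 / (2 * (E * C₁ ^ θ)) * N ^ ((-lam - ε) * (q - 1))) := by gcongr
      _ = _ := by
          rw [Real.rpow_add hN0, Real.rpow_add hN0, hV]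
          ring
  have h6 : N ^ ((lam + ε / 2) / d + (d : ℝ) * θ + (-lam - ε) * (q - 1)) ≤ 1 := by
    apply Real.rpow_le_one_of_one_le_of_nonpos hN
    have e4 : (d : ℝ) * θ = ε / (2 * d) := by rw [hθ]; field_simp
    have e5 : (-lam - ε) * (q - 1) = -(lam + ε) / d - (lam + ε) * θ := by
      rw [hq]
      field_simp
      ring
    have e6 : 0 ≤ (lam + ε) * θ := by positivity
    rw [e4, e5]
    have e7 : (lam + ε / 2) / (d : ℝ) + ε / (2 * d) + (-(lam + ε) / d - (lam + ε) * θ) = -((lam + ε) * θ) := by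
      field_simp
      ring
    rw [e7]
    linarith
  have e8 : E * C₁ ^ θ * (1 / (2 * (E * C₁ ^ θ))) = 1 / 2 := by
    field_simp
  rw [e8] at h5
  have h7 : V * (1 / 2 * N ^ ((lam + ε / 2) / d + (d : ℝ) * θ + (-lam - ε) * (q - 1))) ≤ V * (1 / 2 * 1) := by
    gcongr
  linarith

end Pool.Agent.U527.Rs
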